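import Pool.Agent.H29.HN.L2
import Pool.Agent.H38.HM.Dens

/-!
# HN project: DIVZ, divergence theorem for `B(r) |u|² ζ x/|x|`
-/

set_option autoImplicit false

namespace Pool.Agent.H29.HN

open Pool.Agent.H99.HM Pool.Agent.H99.HN
open MeasureTheory Set Filter Topology Real
open scoped ContDiff

/-- approximation by test functions -/
lemma exists_H1c {u : E3 → ℂ} {G : Fin 3 → E3 → ℂ} (hu : IsH1 u G) :
    ∃ φ ψ : ℕ → E3 → ℝ, (∀ n, IsTest (φ n) ∧ IsTest (ψ n)) ∧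
      H1c u G (fun n x => (φ n x : ℂ) + (ψ n x : ℂ) * Complex.I)
        (fun n i x => (pd i (φ n) x : ℂ) + (pd i (ψ n) x : ℂ) * Complex.I) := by
  obtain ⟨φ, ψ, hT, h1, h2⟩ := Pool.Agent.H38.HM.dens u G hu
  exact ⟨φ, ψ, hT, hu, fun n => isH1_add_I (isH1_test (hT n).1) (isH1_test (hT n).2), h1, h2⟩

lemma norm_combo_sq (a b : ℝ) : ‖(a : ℂ) + (b : ℂ) * Complex.I‖ ^ 2 = a ^ 2 + b ^ 2 := by
  rw [← Complex.normSq_eq_norm_sq, Complex.normSq_add_mul_I]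

lemma ur_combo (φ ψ : E3 → ℝ) (x : E3) :
    ur (fun x => (φ x : ℂ) + (ψ x : ℂ) * Complex.I)
      (fun i x => (pd i φ x : ℂ) + (pd i ψ x : ℂ) * Complex.I) x =
      φ x * (∑ i, x i / ‖x‖ * pd i φ x) + ψ x * ∑ i, x i / ‖x‖ * pd i ψ x := by
  have h1 : dr (fun i x => (pd i φ x : ℂ) + (pd i ψ x : ℂ) * Complex.I) x =
      ((∑ i, x i / ‖x‖ * pd i φ x : ℝ) : ℂ) +
        ((∑ i, x i / ‖x‖ * pd i ψ x : ℝ) : ℂ) * Complex.I := by
    unfold dr
    rw [Complex.ofReal_sum, Complex.ofReal_sum, Finset.sum_mul, ← Finset.sum_add_distrib]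
    refine Finset.sum_congr rfl fun i _ => ?_
    push_cast
    ring
  unfold ur
  rw [h1]
  simp

lemma ur_real (φ : E3 → ℝ) (x : E3) :
    ur (fun x => (φ x : ℂ)) (fun i x => (pd i φ x : ℂ)) x =
      φ x * (∑ i, x i / ‖x‖ * pd i φ x) := by
  have h1 : dr (fun i x => (pd i φ x : ℂ)) x = ((∑ i, x i / ‖x‖ * pd i φ x : ℝ) : ℂ) := by
    unfold dr
    rw [Complex.ofReal_sum]
    refine Finset.sum_congr rfl fun i _ => ?_
    push_cast
    ring
  unfold ur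
  rw [h1]
  simp

/-- DIVZ -/
theorem divz (hdt : T_dtest) (hhardy : T_hardy) : T_divz := by
  intro u G hu B B1 ζ C hB hC hζ hζC
  have hC0 : 0 ≤ C := (abs_nonneg _).trans (hC 1 one_pos).1
  have hBc : ContinuousOn B (Ioi 0) := C1.continuousOn hB
  have hζm : AEStronglyMeasurable ζ volume := hζ.continuous.aestronglyMeasurable
  set w : ℝ → ℝ := fun r => B1 r + 2 * B r / r with hw
  have hwc : ContinuousOn w (Ioi 0) :=
    hB.cont.add ((continuousOn_const.mul hBc).div continuousOn_id fun r hr => ne_of_gt hr)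
  have hwb : ∀ r, 0 < r → |w r| ≤ 3 * C * (1 / r + 1) := by
    intro r hr
    have h1 : |2 * B r / r| ≤ 2 * C * (1 / r) := by
      rw [abs_div, abs_mul, abs_two, abs_of_pos hr, mul_one_div]
      have := (hC r hr).1
      gcongr
    have h2 := abs_add_le (B1 r) (2 * B r / r)
    have h3 := (hC r hr).2
    calc |w r| ≤ |B1 r| + |2 * B r / r| := h2
      _ ≤ C * (1 / r + 1) + 2 * C * (1 / r) := add_le_add h3 h1
      _ ≤ 3 * C * (1 / r + 1) := by nlinarith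
  have hw1 : ∀ᵐ x : E3, |w ‖x‖| ≤ 3 * C * (1 / ‖x‖ + 1) :=
    ae_pos_norm.mono fun x hx => hwb _ hx
  have hw2 : AEStronglyMeasurable (fun x : E3 => w ‖x‖) volume := aesm_of_contOn hwc
  have hB1 : ∀ᵐ x : E3, |B ‖x‖| ≤ C := ae_pos_norm.mono fun x hx => (hC _ hx).1
  have hB2 : AEStronglyMeasurable (fun x : E3 => B ‖x‖) volume := aesm_of_contOn hBc
  -- weights with `ζ`
  have hwζ2 : AEStronglyMeasurable (fun x : E3 => w ‖x‖ * ζ x) volume := hw2.mul hζm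
  have hwζ1 : ∀ᵐ x : E3, |w ‖x‖ * ζ x| ≤ 3 * C * C * (1 / ‖x‖ + 1) := by
    filter_upwards [hw1] with x hx
    rw [abs_mul]
    calc |w ‖x‖| * |ζ x| ≤ 3 * C * (1 / ‖x‖ + 1) * C :=
          mul_le_mul hx (hζC x).1 (abs_nonneg _) (by positivity)
      _ = _ := by ring
  have hBζ2 : AEStronglyMeasurable (fun x : E3 => 2 * B ‖x‖ * ζ x) volume :=
    (hB2.const_mul 2).mul hζm
  have hBζ1 : ∀ᵐ x : E3, |2 * B ‖x‖ * ζ x| ≤ 2 * C * C := by
    filter_upwards [hB1] with x hx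
    rw [abs_mul, abs_mul, abs_two]
    exact mul_le_mul (by linarith) (hζC x).1 (abs_nonneg _) (by positivity)
  set ζr : E3 → ℝ := fun x => ∑ i, x i / ‖x‖ * pd i ζ x with hζr
  have hζrm : AEStronglyMeasurable ζr volume := by
    refine Finset.aestronglyMeasurable_fun_sum _ fun i _ => (aesm_coord i).mul ?_
    have h1 : Continuous (fderiv ℝ ζ) := hζ.continuous_fderiv (by simp)
    exact (h1.clm_apply continuous_const).aestronglyMeasurable
  have hζrb : ∀ x, |ζr x| ≤ 3 * C := by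
    intro x
    refine (Finset.abs_sum_le_sum_abs _ _).trans ?_
    have h1 : ∀ i ∈ (Finset.univ : Finset (Fin 3)), |x i / ‖x‖ * pd i ζ x| ≤ C := by
      intro i _
      rw [abs_mul]
      calc |x i / ‖x‖| * |pd i ζ x| ≤ 1 * C :=
            mul_le_mul (abs_coord_div_le x i) ((hζC x).2 i) (abs_nonneg _) zero_le_one
        _ = C := one_mul C
    have h2 := Finset.sum_le_sum h1
    simpa using h2
  have hBr2 : AEStronglyMeasurable (fun x : E3 => B ‖x‖ * ζr x) volume := hB2.mul hζrm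
  have hBr1' : ∀ᵐ x : E3, |B ‖x‖ * ζr x| ≤ C * (3 * C) := by
    filter_upwards [hB1] with x hx
    rw [abs_mul]
    exact mul_le_mul hx (hζrb x) (abs_nonneg _) hC0
  have hBr1 : ∀ᵐ x : E3, |B ‖x‖ * ζr x| ≤ C * (3 * C) * (1 / ‖x‖ + 1) := by
    filter_upwards [hBr1', ae_pos_norm] with x hx hx0
    refine hx.trans (le_mul_of_one_le_right (by positivity) ?_)
    have : 0 < 1 / ‖x‖ := by positivity
    linarith
  have key : ∀ v H, IsH1 v H → Integrable (fun x => w ‖x‖ * ζ x * ‖v x‖ ^ 2) ∧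
      Integrable (fun x => 2 * B ‖x‖ * ζ x * ur v H x) ∧
      Integrable (fun x => B ‖x‖ * ζr x * ‖v x‖ ^ 2) := fun v H hv =>
    ⟨integrable_weight hhardy hv hwζ2 hwζ1, integrable_bdd_mul hBζ2 hBζ1 (integrable_ur hv),
      integrable_weight hhardy hv hBr2 hBr1⟩
  refine ⟨integrable_weight hhardy hu hw2 hw1, integrable_bdd_mul hB2 hB1 (integrable_ur hu), ?_⟩
  obtain ⟨φ, ψ, hT, hc⟩ := exists_H1c hu
  -- the identity for one test function
  have test : ∀ φ : E3 → ℝ, IsTest φ →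
      (∫ x, w ‖x‖ * ζ x * φ x ^ 2) + (∫ x, 2 * B ‖x‖ * ζ x * (φ x * ∑ i, x i / ‖x‖ * pd i φ x)) =
      - ∫ x, B ‖x‖ * ζr x * φ x ^ 2 := by
    intro φ hφ
    have h1 := hdt φ hφ B B1 ζ C hB hC hζ
    obtain ⟨k1, k2, -⟩ := key _ _ (isH1_test hφ)
    simp only [ur_real] at k2
    have e0 : ∀ x, ‖(φ x : ℂ)‖ ^ 2 = φ x ^ 2 := fun x => by
      rw [Complex.norm_real, Real.norm_eq_abs, sq_abs]
    simp only [e0] at k1
    rw [← integral_add k1 k2]
    have e1 : ∀ x : E3, ((B1 ‖x‖ + 2 * B ‖x‖ / ‖x‖) * φ x ^ 2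
      + 2 * B ‖x‖ * (φ x * ∑ i, x i / ‖x‖ * pd i φ x)) * ζ x = w ‖x‖ * ζ x * φ x ^ 2 +
        2 * B ‖x‖ * ζ x * (φ x * ∑ i, x i / ‖x‖ * pd i φ x) := by
      intro x
      rw [hw]
      ring
    have e2 : ∀ x : E3, B ‖x‖ * φ x ^ 2 * ∑ i, x i / ‖x‖ * pd i ζ x =
        B ‖x‖ * ζr x * φ x ^ 2 := by
      intro x
      rw [hζr]
      ring
    simp only [e1, e2] at h1
    exact h1
  have testC : ∀ n, (∫ x, w ‖x‖ * ζ x * ‖(φ n x : ℂ) + (ψ n x : ℂ) * Complex.I‖ ^ 2) +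
      (∫ x, 2 * B ‖x‖ * ζ x * ur (fun x => (φ n x : ℂ) + (ψ n x : ℂ) * Complex.I)
        (fun i x => (pd i (φ n) x : ℂ) + (pd i (ψ n) x : ℂ) * Complex.I) x) =
      - ∫ x, B ‖x‖ * ζr x * ‖(φ n x : ℂ) + (ψ n x : ℂ) * Complex.I‖ ^ 2 := by
    intro n
    have t1 := test _ (hT n).1
    have t2 := test _ (hT n).2
    obtain ⟨k1, k2, k3⟩ := key _ _ (isH1_test (hT n).1)
    obtain ⟨l1, l2, l3⟩ := key _ _ (isH1_test (hT n).2)
    have e0 : ∀ (φ : E3 → ℝ) (x : E3), ‖(φ x : ℂ)‖ ^ 2 = φ x ^ 2 := fun φ x => by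
      rw [Complex.norm_real, Real.norm_eq_abs, sq_abs]
    simp only [ur_real, e0] at k1 k2 k3 l1 l2 l3
    simp only [norm_combo_sq, ur_combo, mul_add]
    rw [integral_add k1 l1, integral_add k2 l2, integral_add k3 l3]
    linarith
  have L1 := hc.weight hhardy hwζ2 hwζ1
  have L2' := hc.ur hBζ2 hBζ1
  have L3 := (hc.weight hhardy hBr2 hBr1).neg
  have L := L1.add L2'
  simp only [testC] at L
  have hfin := tendsto_nhds_unique L L3
  obtain ⟨k1, k2, -⟩ := key u G hu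
  rw [← integral_add k1 k2] at hfin
  have e1 : ∀ x : E3, ((B1 ‖x‖ + 2 * B ‖x‖ / ‖x‖) * ‖u x‖ ^ 2 + 2 * B ‖x‖ * ur u G x) * ζ x =
      w ‖x‖ * ζ x * ‖u x‖ ^ 2 + 2 * B ‖x‖ * ζ x * ur u G x := by
    intro x
    rw [hw]
    ring
  have e2 : ∀ x : E3, B ‖x‖ * ‖u x‖ ^ 2 * ∑ i, x i / ‖x‖ * pd i ζ x =
      B ‖x‖ * ζr x * ‖u x‖ ^ 2 := by
    intro x
    rw [hζr]
    ring
  simp only [e1, e2]
  exact hfin

end Pool.Agent.H29.HN
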