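import Pool.Agent.H29.HN.MUL

/-!
# HN project: EH, energy identity with a bounded radial weight
-/

set_option autoImplicit false

namespace Pool.Agent.H29.HN

open Pool.Agent.H99.HM Pool.Agent.H99.HN
open MeasureTheory Set Filter Topology Real
open scoped ContDiff

lemma conj_mul_self (z : ℂ) : starRingEnd ℂ z * z = ((‖z‖ ^ 2 : ℝ) : ℂ) := by
  rw [mul_comm, Complex.mul_conj, Complex.normSq_eq_norm_sq]

/-- EH -/
theorem eh (hmul : T_mul) (hwf : T_wf) : T_eh := by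
  intro u lam G hsol hu h h1 C hh hC
  have hv := hmul _ _ (isH1_conj hu) h h1 C hh hC
  obtain ⟨i1, i2, i3, i4, hI⟩ := hwf u lam G hsol hu _ _ hv
  have hhc : ContinuousOn h (Ioi 0) := C1.continuousOn hh
  have hg2 : Integrable (fun x => h ‖x‖ * g2 G x) :=
    integrable_rad_mul hhc (fun r hr => (hC r hr).1) (integrable_g2 hu)
  have hur : Integrable (fun x => h1 ‖x‖ * ur u G x) :=
    integrable_rad_mul hh.cont (fun r hr => (hC r hr).2) (integrable_ur hu)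
  have e0 : ∀ x, (∑ i, ((h ‖x‖ : ℂ) * starRingEnd ℂ (G i x) +
      ((h1 ‖x‖ * (x i / ‖x‖) : ℝ) : ℂ) * starRingEnd ℂ (u x)) * G i x) =
      ((h ‖x‖ * g2 G x : ℝ) : ℂ) + (h1 ‖x‖ : ℂ) * (starRingEnd ℂ (u x) * dr G x) := by
    intro x
    have a1 : ∀ i, ((h ‖x‖ : ℂ) * starRingEnd ℂ (G i x) +
      ((h1 ‖x‖ * (x i / ‖x‖) : ℝ) : ℂ) * starRingEnd ℂ (u x)) * G i x =
      (h ‖x‖ : ℂ) * ((‖G i x‖ ^ 2 : ℝ) : ℂ) +
        (h1 ‖x‖ : ℂ) * (starRingEnd ℂ (u x) * (((x i / ‖x‖ : ℝ) : ℂ) * G i x)) := by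
      intro i
      rw [← conj_mul_self]
      push_cast
      ring
    simp only [a1]
    rw [Finset.sum_add_distrib, ← Finset.mul_sum, ← Finset.mul_sum, ← Finset.mul_sum]
    unfold dr g2
    push_cast
    rfl
  have e1 : (∫ x, ∑ i, ((h ‖x‖ : ℂ) * starRingEnd ℂ (G i x) +
      ((h1 ‖x‖ * (x i / ‖x‖) : ℝ) : ℂ) * starRingEnd ℂ (u x)) * G i x).re =
      (∫ x, h ‖x‖ * g2 G x) + ∫ x, h1 ‖x‖ * ur u G x := by
    rw [← integral_add hg2 hur]
    have a2 := integral_re i1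
    simp only [RCLike.re_to_complex] at a2
    rw [← a2]
    refine integral_congr_ae ?_
    filter_upwards with x
    rw [e0, Complex.add_re, Complex.ofReal_re, Complex.re_ofReal_mul]
    rfl
  have e2 : ∀ x : E3, (h ‖x‖ : ℂ) * starRingEnd ℂ (u x) * u x / (‖x‖ : ℂ) =
      ((h ‖x‖ / ‖x‖ * ‖u x‖ ^ 2 : ℝ) : ℂ) := by
    intro x
    rw [mul_assoc, conj_mul_self]
    push_cast
    ring
  have e3 : ∀ x : E3, (hartree u x : ℂ) * ((h ‖x‖ : ℂ) * starRingEnd ℂ (u x) * u x) =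
      ((h ‖x‖ * ‖u x‖ ^ 2 * hartree u x : ℝ) : ℂ) := by
    intro x
    rw [mul_assoc (h ‖x‖ : ℂ), conj_mul_self]
    push_cast
    ring
  have e4 : ∀ x : E3, (h ‖x‖ : ℂ) * starRingEnd ℂ (u x) * u x =
      ((h ‖x‖ * ‖u x‖ ^ 2 : ℝ) : ℂ) := by
    intro x
    rw [mul_assoc, conj_mul_self]
    push_cast
    ring
  simp only [e2, e3] at hI
  simp only [e4] at hI
  rw [integral_complex_ofReal, integral_complex_ofReal, integral_complex_ofReal] at hI
  have hre := congrArg Complex.re hI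
  rw [Complex.add_re, Complex.sub_re, e1, ← Complex.ofReal_mul, Complex.ofReal_re,
    Complex.ofReal_re, Complex.ofReal_re] at hre
  exact hre

end Pool.Agent.H29.HN
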