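import Pool.Agent.H29.HN.EH

/-!
# HN project: EHP, energy identity with a polynomially bounded radial weight
-/

set_option autoImplicit false

namespace Pool.Agent.H29.HN

open Pool.Agent.H99.HM Pool.Agent.H99.HN
open MeasureTheory Set Filter Topology Real
open scoped ContDiff

/-! ### a cutoff -/

/-- the cutoff -/
noncomputable def chi (N n : ℕ) (r : ℝ) : ℝ := ((1 + r / ((n : ℝ) + 1)) ^ (N + 1))⁻¹

/-- its derivative -/
noncomputable def chi1 (N n : ℕ) (r : ℝ) : ℝ :=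
  -(((N : ℝ) + 1) / ((n : ℝ) + 1)) * ((1 + r / ((n : ℝ) + 1)) ^ (N + 2))⁻¹

lemma one_le_base (n : ℕ) {r : ℝ} (hr : 0 < r) : 1 ≤ 1 + r / ((n : ℝ) + 1) := by
  have : 0 ≤ r / ((n : ℝ) + 1) := by positivity
  linarith

lemma chi_pos (N n : ℕ) {r : ℝ} (hr : 0 < r) : 0 < chi N n r := by
  have := one_le_base n hr
  unfold chi
  positivity

lemma chi_le_one (N n : ℕ) {r : ℝ} (hr : 0 < r) : chi N n r ≤ 1 :=
  inv_le_one_of_one_le₀ (one_le_pow₀ (one_le_base n hr))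

lemma abs_chi1_le (N n : ℕ) {r : ℝ} (hr : 0 < r) :
    |chi1 N n r| ≤ ((N : ℝ) + 1) / ((n : ℝ) + 1) * chi N n r := by
  have h1 := one_le_base n hr
  unfold chi1 chi
  rw [abs_mul, abs_neg, abs_of_nonneg (by positivity : (0 : ℝ) ≤ ((N : ℝ) + 1) / ((n : ℝ) + 1)),
    abs_of_nonneg (by positivity)]
  refine mul_le_mul_of_nonneg_left ?_ (by positivity)
  refine inv_anti₀ (by positivity) ?_
  exact pow_le_pow_right₀ h1 (by omega)

lemma abs_chi1_le' (N n : ℕ) {r : ℝ} (hr : 0 < r) :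
    |chi1 N n r| ≤ ((N : ℝ) + 1) / ((n : ℝ) + 1) :=
  (abs_chi1_le N n hr).trans (mul_le_of_le_one_right (by positivity) (chi_le_one N n hr))

lemma abs_chi1_le'' (N n : ℕ) {r : ℝ} (hr : 0 < r) :
    |chi1 N n r| ≤ ((N : ℝ) + 1) * chi N n r := by
  refine (abs_chi1_le N n hr).trans (mul_le_mul_of_nonneg_right ?_ (chi_pos N n hr).le)
  exact div_le_self (by positivity) (by
    have : (0 : ℝ) ≤ n := Nat.cast_nonneg n
    linarith)

lemma hasDerivAt_chi (N n : ℕ) {r : ℝ} (hr : 0 < r) : HasDerivAt (chi N n) (chi1 N n r) r := by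
  have h1 := one_le_base n hr
  have h4 : (0 : ℝ) < 1 + r / ((n : ℝ) + 1) := by linarith
  have h5 : (0 : ℝ) < (n : ℝ) + 1 := by positivity
  have h2 : HasDerivAt (fun r : ℝ => 1 + r / ((n : ℝ) + 1)) (1 / ((n : ℝ) + 1)) r := by
    simpa using ((hasDerivAt_id r).div_const ((n : ℝ) + 1)).const_add 1
  have h6 : HasDerivAt (fun r : ℝ => (1 + r / ((n : ℝ) + 1)) ^ (N + 1))
      ((N + 1 : ℕ) * (1 + r / ((n : ℝ) + 1)) ^ N * (1 / ((n : ℝ) + 1))) r := by
    simpa using h2.fun_pow (N + 1)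
  have h3 : HasDerivAt (chi N n) (-((N + 1 : ℕ) * (1 + r / ((n : ℝ) + 1)) ^ N *
      (1 / ((n : ℝ) + 1))) / ((1 + r / ((n : ℝ) + 1)) ^ (N + 1)) ^ 2) r :=
    h6.fun_inv (by positivity)
  refine h3.congr_deriv ?_
  unfold chi1
  generalize 1 + r / ((n : ℝ) + 1) = b at h4 ⊢
  push_cast
  field_simp
  ring

lemma continuousOn_chi (N n : ℕ) : ContinuousOn (chi N n) (Ioi 0) :=
  fun r hr => (hasDerivAt_chi N n hr).continuousAt.continuousWithinAt

lemma continuousOn_chi1 (N n : ℕ) : ContinuousOn (chi1 N n) (Ioi 0) := by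
  unfold chi1
  refine ContinuousOn.mul continuousOn_const (ContinuousOn.inv₀ (by fun_prop) ?_)
  intro r hr
  have := one_le_base n hr
  positivity

lemma tendsto_chi (N : ℕ) (r : ℝ) : Tendsto (fun n => chi N n r) atTop (𝓝 1) := by
  unfold chi
  have h1 : Tendsto (fun n : ℕ => r / ((n : ℝ) + 1)) atTop (𝓝 0) := by
    have := (tendsto_one_div_add_atTop_nhds_zero_nat (𝕜 := ℝ)).const_mul r
    simpa [div_eq_mul_inv] using this
  have h2 := ((h1.const_add 1).pow (N + 1)).inv₀ (by simp)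
  simpa using h2

lemma tendsto_chi1 (N : ℕ) {r : ℝ} (hr : 0 < r) :
    Tendsto (fun n => chi1 N n r) atTop (𝓝 0) := by
  have h1 : Tendsto (fun n : ℕ => ((N : ℝ) + 1) / ((n : ℝ) + 1)) atTop (𝓝 0) := by
    have := (tendsto_one_div_add_atTop_nhds_zero_nat (𝕜 := ℝ)).const_mul ((N : ℝ) + 1)
    simpa [div_eq_mul_inv] using this
  exact squeeze_zero_norm (fun n => by rw [Real.norm_eq_abs]; exact abs_chi1_le' N n hr) h1

lemma chi_mul_le (N n : ℕ) {r : ℝ} (hr : 0 < r) {a : ℕ} (ha : a ≤ N) :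
    (1 + r ^ a) * chi N n r ≤ 2 * ((n : ℝ) + 1) ^ N := by
  have h1 := one_le_base n hr
  have hn : (1 : ℝ) ≤ (n : ℝ) + 1 := by
    have : (0 : ℝ) ≤ n := Nat.cast_nonneg n
    linarith
  unfold chi
  rw [← div_eq_mul_inv, div_le_iff₀ (by positivity)]
  have h2 : r ^ a ≤ ((n : ℝ) + 1) ^ a * (1 + r / ((n : ℝ) + 1)) ^ a := by
    rw [← mul_pow]
    refine pow_le_pow_left₀ hr.le ?_ a
    rw [mul_add, mul_div_cancel₀ _ (by positivity)]
    linarith
  have h3 : ((n : ℝ) + 1) ^ a ≤ ((n : ℝ) + 1) ^ N := pow_le_pow_right₀ hn ha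
  have h4 : (1 + r / ((n : ℝ) + 1)) ^ a ≤ (1 + r / ((n : ℝ) + 1)) ^ (N + 1) :=
    pow_le_pow_right₀ h1 (by omega)
  have h5 : ((n : ℝ) + 1) ^ a * (1 + r / ((n : ℝ) + 1)) ^ a ≤
      ((n : ℝ) + 1) ^ N * (1 + r / ((n : ℝ) + 1)) ^ (N + 1) :=
    mul_le_mul h3 h4 (by positivity) (by positivity)
  have h6 : (1 : ℝ) ≤ ((n : ℝ) + 1) ^ N * (1 + r / ((n : ℝ) + 1)) ^ (N + 1) :=
    one_le_mul_of_one_le_of_one_le (one_le_pow₀ hn) (one_le_pow₀ h1)
  linarith

/-- dominated convergence with radial factors -/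
lemma tendsto_radial {a : ℕ → ℝ → ℝ} {b : ℝ → ℝ} {C : ℝ} (ha : ∀ n, ContinuousOn (a n) (Ioi 0))
    (hC : ∀ n r, 0 < r → |a n r| ≤ C) (hl : ∀ r, 0 < r → Tendsto (fun n => a n r) atTop (𝓝 (b r)))
    {F : E3 → ℝ} (hF : Integrable F) :
    Tendsto (fun n => ∫ x, a n ‖x‖ * F x) atTop (𝓝 (∫ x, b ‖x‖ * F x)) := by
  refine tendsto_integral_of_dominated_convergence (fun x => C * ‖F x‖)
    (fun n => (aesm_of_contOn (ha n)).mul hF.1) (hF.norm.const_mul C) ?_ ?_
  · intro n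
    filter_upwards [ae_pos_norm] with x hx
    rw [norm_mul, Real.norm_eq_abs]
    exact mul_le_mul_of_nonneg_right (hC n _ hx) (norm_nonneg _)
  · filter_upwards [ae_pos_norm] with x hx
    exact (hl _ hx).mul_const _

/-! ### growth -/

lemma Gr.nonneg {h : ℝ → ℝ} {C : ℝ} {n : ℕ} (hh : ∀ r, 0 < r → |h r| ≤ C * (1 + r ^ n)) :
    0 ≤ C := by
  have h1 := (abs_nonneg _).trans (hh 1 one_pos)
  rw [one_pow] at h1
  linarith

lemma one_add_pow_le {r : ℝ} (hr : 0 < r) (n : ℕ) : 1 + r ^ n ≤ 2 * (1 / r + r ^ n) := by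
  have h1 : 0 < r ^ n := by positivity
  have h2 : 0 < 1 / r := by positivity
  rcases le_total r 1 with h | h
  · have : 1 ≤ 1 / r := by
      rw [le_div_iff₀ hr]
      linarith
    linarith
  · have : 1 ≤ r ^ n := one_le_pow₀ h
    linarith

lemma Gr.gr1 {h : ℝ → ℝ} (hh : Gr h) : Gr1 h := by
  obtain ⟨C, n, hC⟩ := hh
  have hC0 := Gr.nonneg hC
  refine ⟨2 * C, n, fun r hr => (hC r hr).trans ?_⟩
  calc C * (1 + r ^ n) ≤ C * (2 * (1 / r + r ^ n)) :=
        mul_le_mul_of_nonneg_left (one_add_pow_le hr n) hC0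
    _ = _ := by ring

lemma Gr.div_r {h : ℝ → ℝ} (hh : Gr h) : Gr1 (fun r => h r / r) := by
  obtain ⟨C, n, hC⟩ := hh
  have hC0 := Gr.nonneg hC
  refine ⟨2 * C, n, fun r hr => ?_⟩
  rw [abs_div, abs_of_pos hr, div_le_iff₀ hr]
  refine (hC r hr).trans ?_
  have h1 : 1 + r ^ n ≤ 2 * (1 / r + r ^ n) * r := by
    have e : 2 * (1 / r + r ^ n) * r = 2 + 2 * r ^ n * r := by
      field_simp
    rw [e]
    have h2 : 0 < r ^ n := by positivity
    rcases le_total r 1 with h | h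
    · have : r ^ n ≤ 1 := pow_le_one₀ hr.le h
      have : 0 < 2 * r ^ n * r := by positivity
      linarith
    · nlinarith
  calc C * (1 + r ^ n) ≤ C * (2 * (1 / r + r ^ n) * r) := mul_le_mul_of_nonneg_left h1 hC0
    _ = _ := by ring

/-- the Hartree potential is continuous -/
lemma continuous_hartree (hhb : T_hb) {u : E3 → ℂ} {G : Fin 3 → E3 → ℂ} (hu : IsH1 u G) :
    Continuous (hartree u) := by
  obtain ⟨-, h2, -, -⟩ := hhb u G hu
  refine continuous_iff_continuousAt.2 fun x => ?_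
  rw [ContinuousAt, tendsto_iff_norm_sub_tendsto_zero]
  have h3 : Tendsto (fun y : E3 => 4 * (∫ z, g2 G z) * ‖y - x‖) (𝓝 x) (𝓝 0) := by
    have : Continuous fun y : E3 => 4 * (∫ z, g2 G z) * ‖y - x‖ := by fun_prop
    have h4 := this.tendsto x
    simpa using h4
  exact squeeze_zero (fun _ => norm_nonneg _) (fun y => h2 y x) h3

/-- EHP -/
theorem ehp (heh : T_eh) (hpint : T_pint) (hhb : T_hb) : T_ehp := by
  intro u lam G hsol hu hmom h h1 hh hgr hgr1
  obtain ⟨hp1, hp2⟩ := hpint u G hu hmom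
  have hhc : ContinuousOn h (Ioi 0) := C1.continuousOn hh
  obtain ⟨hb, -, -, -⟩ := hhb u G hu
  have hcont := continuous_hartree hhb hu
  -- the five integrable functions
  have i1 : Integrable (fun x => h ‖x‖ * g2 G x) := (hp2 h hhc hgr).1
  have i2 : Integrable (fun x => h1 ‖x‖ * ur u G x) := (hp1 h1 hh.cont (Gr.gr1 hgr1)).2
  have i2' : Integrable (fun x => h ‖x‖ * ur u G x) := (hp1 h hhc (Gr.gr1 hgr)).2
  have i3 : Integrable (fun x => h ‖x‖ / ‖x‖ * ‖u x‖ ^ 2) :=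
    (hp1 (fun r => h r / r) (hhc.div continuousOn_id fun r hr => (ne_of_gt hr)) (Gr.div_r hgr)).1
  have i5 : Integrable (fun x => h ‖x‖ * ‖u x‖ ^ 2) := (hp1 h hhc (Gr.gr1 hgr)).1
  have i4 : Integrable (fun x => h ‖x‖ * ‖u x‖ ^ 2 * hartree u x) := by
    have := integrable_bdd_mul (C := (∫ y, g2 G y) + mass u) hcont.aestronglyMeasurable
      (ae_of_all _ fun x => by
        rw [abs_of_nonneg (hb x).2.1]
        exact (hb x).2.2) i5
    refine this.congr ?_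
    filter_upwards with x
    ring
  obtain ⟨C, a, hC⟩ := hgr
  obtain ⟨C', a', hC'⟩ := hgr1
  have hC0 := Gr.nonneg hC
  have hC0' := Gr.nonneg hC'
  set N := a + a' with hN
  have key : ∀ n : ℕ, (∫ x, chi N n ‖x‖ * (h ‖x‖ * g2 G x)) +
      ((∫ x, chi N n ‖x‖ * (h1 ‖x‖ * ur u G x)) + ∫ x, chi1 N n ‖x‖ * (h ‖x‖ * ur u G x)) -
      (∫ x, chi N n ‖x‖ * (h ‖x‖ / ‖x‖ * ‖u x‖ ^ 2)) +
      (∫ x, chi N n ‖x‖ * (h ‖x‖ * ‖u x‖ ^ 2 * hartree u x)) =
      lam * ∫ x, chi N n ‖x‖ * (h ‖x‖ * ‖u x‖ ^ 2) := by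
    intro n
    have hC1 : C1 (fun r => chi N n r * h r) (fun r => chi N n r * h1 r + chi1 N n r * h r) := by
      constructor
      · intro r hr
        refine ((hasDerivAt_chi N n hr).mul (hh.der r hr)).congr_deriv ?_
        ring
      · exact ((continuousOn_chi N n).mul hh.cont).add ((continuousOn_chi1 N n).mul hhc)
    have hbd : ∀ r, 0 < r → |h r| * chi N n r ≤ C * (2 * ((n : ℝ) + 1) ^ N) := by
      intro r hr
      calc |h r| * chi N n r ≤ C * (1 + r ^ a) * chi N n r :=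
            mul_le_mul_of_nonneg_right (hC r hr) (chi_pos N n hr).le
        _ = C * ((1 + r ^ a) * chi N n r) := by ring
        _ ≤ _ := mul_le_mul_of_nonneg_left (chi_mul_le N n hr (by omega)) hC0
    have hbd' : ∀ r, 0 < r → |h1 r| * chi N n r ≤ C' * (2 * ((n : ℝ) + 1) ^ N) := by
      intro r hr
      calc |h1 r| * chi N n r ≤ C' * (1 + r ^ a') * chi N n r :=
            mul_le_mul_of_nonneg_right (hC' r hr) (chi_pos N n hr).le
        _ = C' * ((1 + r ^ a') * chi N n r) := by ring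
        _ ≤ _ := mul_le_mul_of_nonneg_left (chi_mul_le N n hr (by omega)) hC0'
    set K : ℝ := ((N : ℝ) + 2) * (C * (2 * ((n : ℝ) + 1) ^ N)) + C' * (2 * ((n : ℝ) + 1) ^ N)
      with hK
    have hK1 : 0 ≤ C * (2 * ((n : ℝ) + 1) ^ N) := by positivity
    have hK2 : 0 ≤ C' * (2 * ((n : ℝ) + 1) ^ N) := by positivity
    have hN0 : (0 : ℝ) ≤ N := Nat.cast_nonneg N
    have hE := heh u lam G hsol hu _ _ K hC1 (by
      intro r hr
      have hc := chi_pos N n hr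
      constructor
      · rw [abs_mul, abs_of_pos hc, mul_comm]
        have := hbd r hr
        nlinarith
      · refine (abs_add_le _ _).trans ?_
        rw [abs_mul, abs_mul, abs_of_pos hc]
        have e1 := hbd r hr
        have e2 := hbd' r hr
        have e3 : |chi1 N n r| * |h r| ≤ ((N : ℝ) + 1) * (|h r| * chi N n r) := by
          calc |chi1 N n r| * |h r| ≤ ((N : ℝ) + 1) * chi N n r * |h r| :=
                mul_le_mul_of_nonneg_right (abs_chi1_le'' N n hr) (abs_nonneg _)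
            _ = _ := by ring
        have e4 : ((N : ℝ) + 1) * (|h r| * chi N n r) ≤
            ((N : ℝ) + 1) * (C * (2 * ((n : ℝ) + 1) ^ N)) :=
          mul_le_mul_of_nonneg_left e1 (by positivity)
        nlinarith)
    have hb1 : ∀ r, 0 < r → |chi N n r| ≤ 1 := fun r hr => by
      rw [abs_of_pos (chi_pos N n hr)]
      exact chi_le_one N n hr
    have j2 : Integrable (fun x => chi N n ‖x‖ * (h1 ‖x‖ * ur u G x)) :=
      integrable_rad_mul (continuousOn_chi N n) hb1 i2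
    have j2' : Integrable (fun x => chi1 N n ‖x‖ * (h ‖x‖ * ur u G x)) :=
      integrable_rad_mul (continuousOn_chi1 N n) (fun r hr => abs_chi1_le' N n hr) i2'
    rw [← integral_add j2 j2']
    have s1 : ∀ x, chi N n ‖x‖ * h ‖x‖ * g2 G x = chi N n ‖x‖ * (h ‖x‖ * g2 G x) :=
      fun x => by ring
    have s2 : ∀ x, (chi N n ‖x‖ * h1 ‖x‖ + chi1 N n ‖x‖ * h ‖x‖) * ur u G x =
      chi N n ‖x‖ * (h1 ‖x‖ * ur u G x) + chi1 N n ‖x‖ * (h ‖x‖ * ur u G x) :=
      fun x => by ring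
    have s3 : ∀ x : E3, chi N n ‖x‖ * h ‖x‖ / ‖x‖ * ‖u x‖ ^ 2 =
      chi N n ‖x‖ * (h ‖x‖ / ‖x‖ * ‖u x‖ ^ 2) := fun x => by ring
    have s4 : ∀ x : E3, chi N n ‖x‖ * h ‖x‖ * ‖u x‖ ^ 2 * hartree u x =
      chi N n ‖x‖ * (h ‖x‖ * ‖u x‖ ^ 2 * hartree u x) := fun x => by ring
    have s5 : ∀ x : E3, chi N n ‖x‖ * h ‖x‖ * ‖u x‖ ^ 2 =
      chi N n ‖x‖ * (h ‖x‖ * ‖u x‖ ^ 2) := fun x => by ring
    simp only [s1, s2, s3, s4] at hE
    simp only [s5] at hE
    exact hE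
  have hb1 : ∀ n r, 0 < r → |chi N n r| ≤ 1 := fun n r hr => by
    rw [abs_of_pos (chi_pos N n hr)]
    exact chi_le_one N n hr
  have hb2 : ∀ n r, 0 < r → |chi1 N n r| ≤ (N : ℝ) + 1 := fun n r hr =>
    (abs_chi1_le'' N n hr).trans (mul_le_of_le_one_right (by positivity) (chi_le_one N n hr))
  have lim : ∀ {F : E3 → ℝ}, Integrable F →
      Tendsto (fun n => ∫ x, chi N n ‖x‖ * F x) atTop (𝓝 (∫ x, F x)) := by
    intro F hF
    have := tendsto_radial (b := fun _ => 1) (fun n => continuousOn_chi N n) hb1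
      (fun r _ => tendsto_chi N r) hF
    simpa using this
  have lim0 : Tendsto (fun n => ∫ x, chi1 N n ‖x‖ * (h ‖x‖ * ur u G x)) atTop (𝓝 0) := by
    have := tendsto_radial (b := fun _ => 0) (fun n => continuousOn_chi1 N n) hb2
      (fun r hr => tendsto_chi1 N hr) i2'
    simpa using this
  have L := ((((lim i1).add ((lim i2).add lim0)).sub (lim i3)).add (lim i4))
  have R := (lim i5).const_mul lam
  simp only [key] at L
  have := tendsto_nhds_unique L R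
  rw [add_zero] at this
  exact this

end Pool.Agent.H29.HN
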