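import Pool.Agent.H29.HN.Tools
import Pool.Agent.H38.HM.Dens

/-!
# HN project: IBH, integration by parts in `H¹`
-/

set_option autoImplicit false

namespace Pool.Agent.H29.HN

open Pool.Agent.H99.HM Pool.Agent.H99.HN
open MeasureTheory Set Filter Topology Real
open scoped ContDiff

/-- IBH -/
theorem ibh : T_ibh := by
  intro u G v H hu hv i
  obtain ⟨φ, ψ, hT, h1, h2⟩ := Pool.Agent.H38.HM.dens v H hv
  have t1 := tendsto_mul hu.memLp (hv.memLp_grad i)
    (fun n => memLp_combo (memLp_pd (hT n).1 i) (memLp_pd (hT n).2 i)) (h2 i)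
  have t2 := tendsto_mul (hu.memLp_grad i) hv.memLp
    (fun n => memLp_combo (memLp_test (hT n).1) (memLp_test (hT n).2)) h1
  have e : ∀ n, ∫ x, u x * ((pd i (φ n) x : ℂ) + (pd i (ψ n) x : ℂ) * Complex.I) =
      - ∫ x, G i x * ((φ n x : ℂ) + (ψ n x : ℂ) * Complex.I) :=
    fun n => weakC hu (hT n).1 (hT n).2 i
  simp only [e] at t1
  exact tendsto_nhds_unique t1 t2.neg

end Pool.Agent.H29.HN
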