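import Pool.Agent.H29.HN.MUL

/-!
# HN project: convergence in `L²`
-/

set_option autoImplicit false

namespace Pool.Agent.H29.HN

open Pool.Agent.H99.HM Pool.Agent.H99.HN
open MeasureTheory Set Filter Topology Real
open scoped ContDiff

/-- convergence in `L²` -/
structure L2 (f : E3 → ℂ) (fn : ℕ → E3 → ℂ) : Prop where
  m : MemLp f 2 volume
  mn : ∀ n, MemLp (fn n) 2 volume
  t : Tendsto (fun n => ∫ x, ‖f x - fn n x‖ ^ 2) atTop (𝓝 0)

variable {f g : E3 → ℂ} {fn gn : ℕ → E3 → ℂ}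

lemma L2.mul (hf : L2 f fn) (hg : L2 g gn) :
    Tendsto (fun n => ∫ x, fn n x * gn n x) atTop (𝓝 (∫ x, f x * g x)) := by
  have h1 := tendsto_mul hf.m hg.m hg.mn hg.t
  obtain ⟨C, hC⟩ := tendsto_norm_sq hg.m hg.mn hg.t
  have h2 : Tendsto (fun n => ∫ x, (f x - fn n x) * gn n x) atTop (𝓝 0) := by
    have hb : ∀ n, ‖∫ x, (f x - fn n x) * gn n x‖ ≤ √(∫ x, ‖f x - fn n x‖ ^ 2) * √C := by
      intro n
      refine (norm_integral_mul_le (hf.m.sub (hf.mn n)) (hg.mn n)).trans ?_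
      exact mul_le_mul_of_nonneg_left (Real.sqrt_le_sqrt (hC n)) (Real.sqrt_nonneg _)
    have := (tendsto_sqrt_zero hf.t).mul_const (√C)
    rw [zero_mul] at this
    exact squeeze_zero_norm hb this
  have h3 := h1.sub h2
  rw [sub_zero] at h3
  refine h3.congr fun n => ?_
  have hi : Integrable (fun x => (f x - fn n x) * gn n x) :=
    integrable_mul (hf.m.sub (hf.mn n)) (hg.mn n)
  rw [← integral_sub (integrable_mul hf.m (hg.mn n)) hi]
  congr 1
  funext x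
  ring

lemma L2.bdd {b : E3 → ℝ} {C : ℝ} (hb : AEStronglyMeasurable b volume) (hC : ∀ᵐ x, |b x| ≤ C)
    (hf : L2 f fn) : L2 (fun x => (b x : ℂ) * f x) (fun n x => (b x : ℂ) * fn n x) := by
  refine ⟨memLp_bdd_mul hb hC hf.m, fun n => memLp_bdd_mul hb hC (hf.mn n), ?_⟩
  have h1 := hf.t.const_mul (C ^ 2)
  rw [mul_zero] at h1
  refine squeeze_zero (fun n => integral_nonneg fun x => by positivity) (fun n => ?_) h1
  have hi : Integrable (fun x => ‖f x - fn n x‖ ^ 2) := integrable_sq (hf.m.sub (hf.mn n))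
  rw [← integral_const_mul]
  refine integral_mono_ae ?_ (hi.const_mul _) ?_
  · exact integrable_sq ((memLp_bdd_mul hb hC hf.m).sub (memLp_bdd_mul hb hC (hf.mn n)))
  · filter_upwards [hC] with x hx
    rw [← mul_sub, norm_mul, mul_pow, Complex.norm_real, Real.norm_eq_abs]
    refine mul_le_mul_of_nonneg_right ?_ (by positivity)
    exact pow_le_pow_left₀ (abs_nonneg _) hx 2

lemma L2.conj (hf : L2 f fn) :
    L2 (fun x => starRingEnd ℂ (f x)) (fun n x => starRingEnd ℂ (fn n x)) := by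
  have hm : ∀ f : E3 → ℂ, MemLp f 2 volume → MemLp (fun x => starRingEnd ℂ (f x)) 2 volume := by
    intro f hf
    have h1 : AEStronglyMeasurable (fun x => starRingEnd ℂ (f x)) volume :=
      Complex.continuous_conj.comp_aestronglyMeasurable hf.1
    refine hf.of_le h1 ?_
    filter_upwards with x
    simp
  refine ⟨hm _ hf.m, fun n => hm _ (hf.mn n), ?_⟩
  refine hf.t.congr fun n => ?_
  congr 1
  funext x
  rw [← map_sub, RCLike.norm_conj]

lemma L2.zero : L2 (fun _ => 0) (fun _ _ => 0) := by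
  refine ⟨MemLp.zero', fun _ => MemLp.zero', ?_⟩
  simp

lemma L2.add (hf : L2 f fn) (hg : L2 g gn) :
    L2 (fun x => f x + g x) (fun n x => fn n x + gn n x) := by
  refine ⟨hf.m.add hg.m, fun n => (hf.mn n).add (hg.mn n), ?_⟩
  have h1 := (hf.t.const_mul 2).add (hg.t.const_mul 2)
  rw [mul_zero, add_zero] at h1
  refine squeeze_zero (fun n => integral_nonneg fun x => by positivity) (fun n => ?_) h1
  have hi : Integrable (fun x => ‖f x - fn n x‖ ^ 2) := integrable_sq (hf.m.sub (hf.mn n))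
  have hi' : Integrable (fun x => ‖g x - gn n x‖ ^ 2) := integrable_sq (hg.m.sub (hg.mn n))
  rw [← integral_const_mul, ← integral_const_mul, ← integral_add (hi.const_mul 2)
    (hi'.const_mul 2)]
  refine integral_mono ?_ ((hi.const_mul 2).add (hi'.const_mul 2)) ?_
  · exact integrable_sq ((hf.m.add hg.m).sub ((hf.mn n).add (hg.mn n)))
  · intro x
    have e : f x + g x - (fn n x + gn n x) = (f x - fn n x) + (g x - gn n x) := by ring
    change ‖f x + g x - (fn n x + gn n x)‖ ^ 2 ≤ 2 * ‖f x - fn n x‖ ^ 2 + 2 * ‖g x - gn n x‖ ^ 2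
    rw [e]
    have := norm_add_le (f x - fn n x) (g x - gn n x)
    nlinarith [norm_nonneg (f x - fn n x), norm_nonneg (g x - gn n x),
      norm_nonneg ((f x - fn n x) + (g x - gn n x)), sq_nonneg (‖f x - fn n x‖ - ‖g x - gn n x‖)]

lemma L2.dr {G : Fin 3 → E3 → ℂ} {Gn : ℕ → Fin 3 → E3 → ℂ} (h : ∀ i, L2 (G i) (fun n => Gn n i)) :
    L2 (Pool.Agent.H99.HN.dr G) (fun n => Pool.Agent.H99.HN.dr (Gn n)) := by
  have hb : ∀ i : Fin 3, L2 (fun x => ((x i / ‖x‖ : ℝ) : ℂ) * G i x)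
      (fun n x => ((x i / ‖x‖ : ℝ) : ℂ) * Gn n i x) := fun i =>
    L2.bdd (aesm_coord i) (ae_of_all _ fun x => abs_coord_div_le x i) (h i)
  have h2 := ((hb 0).add (hb 1)).add (hb 2)
  have e1 : (fun x => ((x 0 / ‖x‖ : ℝ) : ℂ) * G 0 x + ((x 1 / ‖x‖ : ℝ) : ℂ) * G 1 x +
      ((x 2 / ‖x‖ : ℝ) : ℂ) * G 2 x) = Pool.Agent.H99.HN.dr G := by
    funext x
    unfold Pool.Agent.H99.HN.dr
    rw [Fin.sum_univ_three]
  have e2 : (fun n x => ((x 0 / ‖x‖ : ℝ) : ℂ) * Gn n 0 x + ((x 1 / ‖x‖ : ℝ) : ℂ) * Gn n 1 x +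
      ((x 2 / ‖x‖ : ℝ) : ℂ) * Gn n 2 x) = fun n => Pool.Agent.H99.HN.dr (Gn n) := by
    funext n x
    unfold Pool.Agent.H99.HN.dr
    rw [Fin.sum_univ_three]
  rw [e1, e2] at h2
  exact h2

/-- convergence in `H¹` -/
structure H1c (u : E3 → ℂ) (G : Fin 3 → E3 → ℂ) (un : ℕ → E3 → ℂ) (Gn : ℕ → Fin 3 → E3 → ℂ) :
    Prop where
  h : IsH1 u G
  hn : ∀ n, IsH1 (un n) (Gn n)
  t : Tendsto (fun n => ∫ x, ‖u x - un n x‖ ^ 2) atTop (𝓝 0)
  tg : ∀ i, Tendsto (fun n => ∫ x, ‖G i x - Gn n i x‖ ^ 2) atTop (𝓝 0)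

section

variable {u : E3 → ℂ} {G : Fin 3 → E3 → ℂ} {un : ℕ → E3 → ℂ} {Gn : ℕ → Fin 3 → E3 → ℂ}

lemma H1c.l2 (h : H1c u G un Gn) : L2 u un := ⟨h.h.memLp, fun n => (h.hn n).memLp, h.t⟩

lemma H1c.l2g (h : H1c u G un Gn) (i : Fin 3) : L2 (G i) (fun n => Gn n i) :=
  ⟨h.h.memLp_grad i, fun n => (h.hn n).memLp_grad i, h.tg i⟩

lemma H1c.g2 (h : H1c u G un Gn) :
    Tendsto (fun n => ∫ x, Pool.Agent.H99.HN.g2 (fun i x => G i x - Gn n i x) x) atTop (𝓝 0) := by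
  have h1 : ∀ n, ∫ x, Pool.Agent.H99.HN.g2 (fun i x => G i x - Gn n i x) x =
      ∑ i, ∫ x, ‖G i x - Gn n i x‖ ^ 2 := by
    intro n
    have hi : ∀ i ∈ (Finset.univ : Finset (Fin 3)),
        Integrable (fun x => ‖G i x - Gn n i x‖ ^ 2) := fun i _ =>
      integrable_sq ((h.h.memLp_grad i).sub ((h.hn n).memLp_grad i))
    exact integral_finsetSum _ hi
  simp only [h1]
  have := tendsto_finsetSum (Finset.univ : Finset (Fin 3)) fun i _ => h.tg i
  simpa using this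

/-- Hardy's inequality at `0`: membership -/
lemma memLp_hardy (hhardy : T_hardy) (hu : IsH1 u G) :
    MemLp (fun x => ((1 / ‖x‖ : ℝ) : ℂ) * u x) 2 volume := by
  have hm : AEStronglyMeasurable (fun x : E3 => ((1 / ‖x‖ : ℝ) : ℂ) * u x) volume := by
    refine AEStronglyMeasurable.mul ?_ hu.memLp.1
    have : Measurable fun x : E3 => ((1 / ‖x‖ : ℝ) : ℂ) := by fun_prop
    exact this.aestronglyMeasurable
  rw [memLp_two_iff_integrable_sq_norm hm]
  refine ((hhardy u G hu 0).1).congr ?_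
  filter_upwards with x
  rw [norm_mul, Complex.norm_real, norm_div, norm_one, norm_norm, sub_zero]
  ring

/-- Hardy's inequality at `0`: convergence -/
lemma H1c.hardy (hhardy : T_hardy) (h : H1c u G un Gn) :
    L2 (fun x => ((1 / ‖x‖ : ℝ) : ℂ) * u x) (fun n x => ((1 / ‖x‖ : ℝ) : ℂ) * un n x) := by
  refine ⟨memLp_hardy hhardy h.h, fun n => memLp_hardy hhardy (h.hn n), ?_⟩
  have h1 := h.g2.const_mul 4
  rw [mul_zero] at h1
  refine squeeze_zero (fun n => integral_nonneg fun x => by positivity) (fun n => ?_) h1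
  have h2 := (hhardy _ _ (isH1_sub h.h (h.hn n)) 0).2
  refine le_trans (le_of_eq ?_) h2
  congr 1
  funext x
  rw [← mul_sub, norm_mul, Complex.norm_real, norm_div, norm_one, norm_norm, sub_zero]
  ring

/-- weights of order `1/r + 1` -/
lemma H1c.weight (hhardy : T_hardy) (h : H1c u G un Gn) {w : E3 → ℝ} {K : ℝ}
    (hw : AEStronglyMeasurable w volume) (hK : ∀ᵐ x : E3, |w x| ≤ K * (1 / ‖x‖ + 1)) :
    Tendsto (fun n => ∫ x, w x * ‖un n x‖ ^ 2) atTop (𝓝 (∫ x, w x * ‖u x‖ ^ 2)) := by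
  set b : E3 → ℝ := fun x => w x * (‖x‖ / (1 + ‖x‖)) with hb
  have hbm : AEStronglyMeasurable b volume := by
    refine hw.mul ?_
    have : Measurable fun x : E3 => ‖x‖ / (1 + ‖x‖) := by fun_prop
    exact this.aestronglyMeasurable
  have hbK : ∀ᵐ x, |b x| ≤ K := by
    filter_upwards [hK, ae_pos_norm] with x hx hx0
    rw [hb]
    simp only
    rw [abs_mul, abs_of_pos (by positivity : 0 < ‖x‖ / (1 + ‖x‖))]
    calc |w x| * (‖x‖ / (1 + ‖x‖)) ≤ K * (1 / ‖x‖ + 1) * (‖x‖ / (1 + ‖x‖)) :=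
          mul_le_mul_of_nonneg_right hx (by positivity)
      _ = K := by field_simp
  have hA : L2 (fun x => (b x : ℂ) * (((1 / ‖x‖ : ℝ) : ℂ) * u x + u x))
      (fun n x => (b x : ℂ) * (((1 / ‖x‖ : ℝ) : ℂ) * un n x + un n x)) :=
    L2.bdd hbm hbK ((h.hardy hhardy).add h.l2)
  have hM := hA.mul h.l2.conj
  have e : ∀ v : E3 → ℂ, ∫ x, (b x : ℂ) * (((1 / ‖x‖ : ℝ) : ℂ) * v x + v x) *
      starRingEnd ℂ (v x) = ((∫ x, w x * ‖v x‖ ^ 2 : ℝ) : ℂ) := by
    intro v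
    rw [← integral_complex_ofReal]
    refine integral_congr_ae ?_
    filter_upwards [ae_pos_norm] with x hx0
    have e1 : (b x : ℂ) * (((1 / ‖x‖ : ℝ) : ℂ) * v x + v x) * starRingEnd ℂ (v x) =
        ((b x * (1 / ‖x‖ + 1) : ℝ) : ℂ) * (v x * starRingEnd ℂ (v x)) := by
      push_cast
      ring
    rw [e1, Complex.mul_conj, Complex.normSq_eq_norm_sq, ← Complex.ofReal_mul]
    congr 2
    rw [hb]
    simp only
    field_simp
  simp only [e] at hM
  have := (Complex.continuous_re.tendsto _).comp hM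
  rw [Complex.ofReal_re] at this
  exact this.congr fun n => Complex.ofReal_re _

/-- weights times `ur` -/
lemma H1c.ur (h : H1c u G un Gn) {w : E3 → ℝ} {K : ℝ}
    (hw : AEStronglyMeasurable w volume) (hK : ∀ᵐ x : E3, |w x| ≤ K) :
    Tendsto (fun n => ∫ x, w x * Pool.Agent.H99.HN.ur (un n) (Gn n) x) atTop
      (𝓝 (∫ x, w x * Pool.Agent.H99.HN.ur u G x)) := by
  have hA := (L2.bdd hw hK h.l2.conj).mul (L2.dr h.l2g)
  have e : ∀ (v : E3 → ℂ) (H : Fin 3 → E3 → ℂ), IsH1 v H →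
      (∫ x, (w x : ℂ) * starRingEnd ℂ (v x) * Pool.Agent.H99.HN.dr H x).re =
      ∫ x, w x * Pool.Agent.H99.HN.ur v H x := by
    intro v H hv
    have hi : Integrable (fun x => (w x : ℂ) * starRingEnd ℂ (v x) * Pool.Agent.H99.HN.dr H x) :=
      integrable_mul (memLp_bdd_mul hw hK (isH1_conj hv).memLp) (memLp_dr hv)
    have a2 := integral_re hi
    simp only [RCLike.re_to_complex] at a2
    rw [← a2]
    congr 1
    funext x
    rw [mul_assoc, Complex.re_ofReal_mul]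
    rfl
  have := (Complex.continuous_re.tendsto _).comp hA
  rw [e u G h.h] at this
  refine this.congr fun n => ?_
  exact e _ _ (h.hn n)

lemma integrable_weight (hhardy : T_hardy) (hu : IsH1 u G) {w : E3 → ℝ} {K : ℝ}
    (hw : AEStronglyMeasurable w volume) (hK : ∀ᵐ x : E3, |w x| ≤ K * (1 / ‖x‖ + 1)) :
    Integrable (fun x => w x * ‖u x‖ ^ 2) := by
  have h1 := (hhardy u G hu 0).1
  have h2 := integrable_sq hu.memLp
  refine (((h1.add (h2.const_mul 3)).const_mul (|K| / 2))).mono'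
    (hw.mul h2.1) ?_
  filter_upwards [hK, ae_pos_norm] with x hx hx0
  rw [norm_mul, Real.norm_eq_abs, Real.norm_eq_abs, abs_of_nonneg (by positivity : 0 ≤ ‖u x‖ ^ 2),
    Pi.add_apply, sub_zero]
  have h3 : |w x| ≤ |K| * (1 / ‖x‖ + 1) :=
    hx.trans (mul_le_mul_of_nonneg_right (le_abs_self K) (by positivity))
  have h4 : (1 / ‖x‖ + 1) * ‖u x‖ ^ 2 ≤ (‖u x‖ ^ 2 / ‖x‖ ^ 2 + 3 * ‖u x‖ ^ 2) / 2 := by
    have e : ‖u x‖ ^ 2 / ‖x‖ ^ 2 = (1 / ‖x‖) ^ 2 * ‖u x‖ ^ 2 := by ring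
    rw [e]
    nlinarith [mul_nonneg (sq_nonneg (1 / ‖x‖ - 1)) (sq_nonneg ‖u x‖)]
  calc |w x| * ‖u x‖ ^ 2 ≤ |K| * (1 / ‖x‖ + 1) * ‖u x‖ ^ 2 :=
        mul_le_mul_of_nonneg_right h3 (by positivity)
    _ = |K| * ((1 / ‖x‖ + 1) * ‖u x‖ ^ 2) := by ring
    _ ≤ |K| * ((‖u x‖ ^ 2 / ‖x‖ ^ 2 + 3 * ‖u x‖ ^ 2) / 2) :=
        mul_le_mul_of_nonneg_left h4 (abs_nonneg K)
    _ = _ := by ring

end

end Pool.Agent.H29.HN
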