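import Pool.Agent.H29.HN.Tools

/-!
# HN project: MUL, product of an `H¹` function with a radial function
-/

set_option autoImplicit false

namespace Pool.Agent.H29.HN

open Pool.Agent.H99.HM Pool.Agent.H99.HN
open MeasureTheory Set Filter Topology Real
open scoped ContDiff

lemma memLp_bdd_mul {f : E3 → ℝ} {C : ℝ} (hf : AEStronglyMeasurable f volume)
    (hC : ∀ᵐ x, |f x| ≤ C) {u : E3 → ℂ} (hu : MemLp u 2 volume) :
    MemLp (fun x => (f x : ℂ) * u x) 2 volume := by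
  refine MemLp.of_le_mul (c := C) hu
    ((Complex.continuous_ofReal.comp_aestronglyMeasurable hf).mul hu.1) ?_
  filter_upwards [hC] with x hx
  rw [norm_mul, Complex.norm_real, Real.norm_eq_abs]
  exact mul_le_mul_of_nonneg_right hx (norm_nonneg _)

lemma memLp_rad_mul {f : ℝ → ℝ} {C : ℝ} (hf : ContinuousOn f (Ioi 0))
    (hC : ∀ r, 0 < r → |f r| ≤ C) {u : E3 → ℂ} (hu : MemLp u 2 volume) :
    MemLp (fun x => (f ‖x‖ : ℂ) * u x) 2 volume :=
  memLp_bdd_mul (aesm_of_contOn hf) (ae_pos_norm.mono fun _ hx => hC _ hx) hu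

lemma abs_coord_div_le (x : E3) (i : Fin 3) : |x i / ‖x‖| ≤ 1 := by
  rw [abs_div, abs_norm]
  have h : |x i| ≤ ‖x‖ := by
    have := PiLp.norm_apply_le x i
    rwa [Real.norm_eq_abs] at this
  rcases (norm_nonneg x).eq_or_lt with h0 | h0
  · rw [← h0]
    simp
  · rwa [div_le_one h0]

lemma C1.continuousOn {h h1 : ℝ → ℝ} (hh : C1 h h1) : ContinuousOn h (Ioi 0) :=
  fun r hr => (hh.der r hr).continuousAt.continuousWithinAt

lemma C1.contDiffOn {h h1 : ℝ → ℝ} (hh : C1 h h1) : ContDiffOn ℝ 1 h (Ioi 0) := by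
  rw [show (1 : WithTop ℕ∞) = 0 + 1 by norm_num, contDiffOn_succ_iff_deriv_of_isOpen isOpen_Ioi]
  refine ⟨fun r hr => (hh.der r hr).differentiableAt.differentiableWithinAt, by simp, ?_⟩
  rw [contDiffOn_zero]
  exact hh.cont.congr fun r hr => (hh.der r hr).deriv

lemma hasFDerivAt_norm3 {x : E3} (hx : x ≠ 0) :
    HasFDerivAt (fun x : E3 => ‖x‖) (‖x‖⁻¹ • innerSL ℝ x) x := by
  have h1 := (hasStrictFDerivAt_norm_sq x).hasFDerivAt.sqrt (by
    have := norm_pos_iff.2 hx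
    positivity)
  have h2 : (fun y : E3 => √(‖y‖ ^ 2)) = fun y => ‖y‖ := by
    funext y
    exact Real.sqrt_sq (norm_nonneg y)
  rw [h2, Real.sqrt_sq (norm_nonneg x)] at h1
  have h3 : (‖x‖⁻¹ • innerSL ℝ x : E3 →L[ℝ] ℝ) = (1 / (2 * ‖x‖)) • (2 • innerSL ℝ x) := by
    have := (norm_pos_iff.2 hx).ne'
    rw [← Nat.cast_smul_eq_nsmul ℝ 2, smul_smul]
    congr 1
    field_simp
    norm_num
  rw [h3]
  exact h1

lemma hasFDerivAt_rad {h h1 : ℝ → ℝ} (hh : C1 h h1) {x : E3} (hx : x ≠ 0) :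
    HasFDerivAt (fun x : E3 => h ‖x‖) (h1 ‖x‖ • (‖x‖⁻¹ • innerSL ℝ x)) x :=
  (hh.der ‖x‖ (norm_pos_iff.2 hx)).comp_hasFDerivAt x (hasFDerivAt_norm3 hx)

lemma pd_rad_mul {h h1 : ℝ → ℝ} (hh : C1 h h1) {φ : E3 → ℝ} {x : E3} (hx : x ≠ 0)
    (hφ : DifferentiableAt ℝ φ x) (i : Fin 3) :
    pd i (fun x => h ‖x‖ * φ x) x = h ‖x‖ * pd i φ x + h1 ‖x‖ * (x i / ‖x‖) * φ x := by
  unfold pd
  have h1' := (hasFDerivAt_rad hh hx).mul hφ.hasFDerivAt
  have h2 : (innerSL ℝ x) (EuclideanSpace.single i (1 : ℝ)) = x i := by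
    rw [innerSL_apply_apply, EuclideanSpace.inner_single_right]
    simp
  have h3 : fderiv ℝ (fun x => h ‖x‖ * φ x) x = _ := h1'.fderiv
  rw [h3]
  simp [h2]
  ring

lemma exists_bound_test {φ : E3 → ℝ} (h : Continuous φ) (hc : HasCompactSupport φ) :
    ∃ M, 0 ≤ M ∧ ∀ x, |φ x| ≤ M := by
  obtain ⟨M, hM⟩ := hc.exists_bound_of_continuous h
  exact ⟨M, (norm_nonneg _).trans (hM 0), hM⟩

/-- MUL -/
theorem mul (hh1c : T_h1c) (hibh : T_ibh) : T_mul := by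
  intro u G hu h h1 C hh hC
  have hC0 : 0 ≤ C := (abs_nonneg _).trans (hC 1 one_pos).1
  have hhc : ContinuousOn h (Ioi 0) := C1.continuousOn hh
  have hm2 : ∀ i : Fin 3, AEStronglyMeasurable (fun x : E3 => h1 ‖x‖ * (x i / ‖x‖)) volume :=
    fun i => (aesm_of_contOn hh.cont).mul (aesm_coord i)
  have hb2 : ∀ i : Fin 3, ∀ᵐ x : E3, |h1 ‖x‖ * (x i / ‖x‖)| ≤ C := by
    intro i
    filter_upwards [ae_pos_norm] with x hx
    rw [abs_mul]
    calc |h1 ‖x‖| * |x i / ‖x‖| ≤ C * 1 :=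
          mul_le_mul (hC _ hx).2 (abs_coord_div_le x i) (abs_nonneg _) hC0
      _ = C := mul_one C
  have hm1 : MemLp (fun x => (h ‖x‖ : ℂ) * u x) 2 volume :=
    memLp_rad_mul hhc (fun r hr => (hC r hr).1) hu.memLp
  have hm3 : ∀ i, MemLp (fun x => (h ‖x‖ : ℂ) * G i x) 2 volume := fun i =>
    memLp_rad_mul hhc (fun r hr => (hC r hr).1) (hu.memLp_grad i)
  have hm4 : ∀ i : Fin 3, MemLp (fun x : E3 => ((h1 ‖x‖ * (x i / ‖x‖) : ℝ) : ℂ) * u x) 2 volume :=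
    fun i => memLp_bdd_mul (hm2 i) (hb2 i) hu.memLp
  refine ⟨hm1, fun i => (hm3 i).add (hm4 i), fun i φ hφ => ?_⟩
  obtain ⟨M0, hM0, hM0'⟩ := exists_bound_test hφ.1.continuous hφ.2
  have hM1 : ∀ j : Fin 3, ∃ M, 0 ≤ M ∧ ∀ x, |pd j φ x| ≤ M := fun j =>
    exists_bound_test (continuous_pd hφ j) (hasCompactSupport_pd hφ j)
  choose M1 hM1 hM1' using hM1
  have hφd : Differentiable ℝ φ := hφ.1.differentiable (by simp)
  have hψ : IsH1 (fun x => ((h ‖x‖ * φ x : ℝ) : ℂ))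
      (fun i x => (pd i (fun x => h ‖x‖ * φ x) x : ℂ)) := by
    refine hh1c (fun x => h ‖x‖ * φ x) (C * M0 + C * ∑ j, M1 j) ?_ ?_ ?_
    · refine ContDiffOn.mul ?_ ((hφ.1.of_le (by simp)).contDiffOn)
      intro x hx
      have e1 : ContDiffAt ℝ 1 h ‖x‖ :=
        (C1.contDiffOn hh).contDiffAt (Ioi_mem_nhds (norm_pos_iff.2 hx))
      exact (e1.comp x (contDiffAt_norm ℝ hx)).contDiffWithinAt
    · exact hφ.2.mul_left
    · intro x hx
      have hx' : 0 < ‖x‖ := norm_pos_iff.2 hx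
      have hs : ∀ j, M1 j ≤ ∑ j, M1 j := fun j =>
        Finset.single_le_sum (fun j _ => hM1 j) (Finset.mem_univ j)
      constructor
      · rw [abs_mul]
        have : |h ‖x‖| * |φ x| ≤ C * M0 :=
          mul_le_mul (hC _ hx').1 (hM0' x) (abs_nonneg _) hC0
        have : 0 ≤ C * ∑ j, M1 j := mul_nonneg hC0 (Finset.sum_nonneg fun j _ => hM1 j)
        linarith
      · intro j
        rw [pd_rad_mul hh hx hφd.differentiableAt j]
        have e1 : |h ‖x‖ * pd j φ x| ≤ C * ∑ j, M1 j := by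
          rw [abs_mul]
          exact mul_le_mul (hC _ hx').1 ((hM1' j x).trans (hs j)) (abs_nonneg _) hC0
        have e2 : |h1 ‖x‖ * (x j / ‖x‖) * φ x| ≤ C * M0 := by
          rw [abs_mul, abs_mul]
          have : |h1 ‖x‖| * |x j / ‖x‖| ≤ C * 1 :=
            mul_le_mul (hC _ hx').2 (abs_coord_div_le x j) (abs_nonneg _) hC0
          rw [mul_one] at this
          exact mul_le_mul this (hM0' x) (abs_nonneg _) hC0
        have := abs_add_le (h ‖x‖ * pd j φ x) (h1 ‖x‖ * (x j / ‖x‖) * φ x)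
        linarith
  have hI := hibh u G _ _ hu hψ i
  have hφ2 := memLp_test hφ
  have hae : ∀ᵐ x : E3, (pd i (fun x => h ‖x‖ * φ x) x : ℂ) =
      (h ‖x‖ : ℂ) * (pd i φ x : ℂ) + ((h1 ‖x‖ * (x i / ‖x‖) : ℝ) : ℂ) * (φ x : ℂ) := by
    filter_upwards [ae_ne_zero] with x hx
    rw [pd_rad_mul hh hx hφd.differentiableAt i]
    push_cast
    ring
  have e1 : ∫ x, u x * (pd i (fun x => h ‖x‖ * φ x) x : ℂ) =
      (∫ x, (h ‖x‖ : ℂ) * u x * (pd i φ x : ℂ)) +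
        ∫ x, ((h1 ‖x‖ * (x i / ‖x‖) : ℝ) : ℂ) * u x * (φ x : ℂ) := by
    rw [← integral_add (integrable_mul hm1 (memLp_pd hφ i)) (integrable_mul (hm4 i) hφ2)]
    refine integral_congr_ae ?_
    filter_upwards [hae] with x hx
    rw [hx]
    ring
  have e2 : ∫ x, G i x * ((h ‖x‖ * φ x : ℝ) : ℂ) = ∫ x, (h ‖x‖ : ℂ) * G i x * (φ x : ℂ) := by
    refine integral_congr_ae ?_
    filter_upwards with x
    push_cast
    ring
  rw [e1, e2] at hI
  simp only [add_mul]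
  rw [integral_add (integrable_mul (hm3 i) hφ2) (integrable_mul (hm4 i) hφ2)]
  linear_combination hI

end Pool.Agent.H29.HN
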