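import Pool.Agent.H29.HN.Tools

/-!
# HN project: NU, the radial mass measure
-/

set_option autoImplicit false

namespace Pool.Agent.H29.HN

open Pool.Agent.H99.HM Pool.Agent.H99.HN
open MeasureTheory Set Filter Topology Real
open scoped ContDiff

/-- NU -/
theorem nu' : T_nu := by
  intro u hu
  have hint := integrable_sq hu
  set w : E3 → NNReal := fun x => (‖u x‖ ^ 2).toNNReal with hw
  have hwm : AEMeasurable w volume := (hu.1.norm.aemeasurable.pow_const 2).real_toNNReal
  have hnu : nu u = Measure.map (fun x : E3 => ‖x‖) (volume.withDensity (fun x => (w x : ENNReal))) :=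
    rfl
  have hsm : ∀ (g : E3 → ℝ), (fun x => w x • g x) = fun x => g x * ‖u x‖ ^ 2 := by
    intro g
    funext x
    rw [NNReal.smul_def, smul_eq_mul, hw]
    change ((‖u x‖ ^ 2).toNNReal : ℝ) * g x = _
    rw [Real.coe_toNNReal _ (by positivity), mul_comm]
  have huniv : nu u univ = ENNReal.ofReal (mass u) := by
    rw [hnu, Measure.map_apply measurable_norm MeasurableSet.univ, preimage_univ,
      withDensity_apply _ MeasurableSet.univ, Measure.restrict_univ]
    exact (ofReal_integral_eq_lintegral_ofReal hint (ae_of_all _ fun x => by positivity)).symm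
  have hm0 : 0 ≤ mass u := integral_nonneg fun x => by positivity
  refine ⟨⟨by rw [huniv]; exact ENNReal.ofReal_lt_top⟩, by rw [huniv, ENNReal.toReal_ofReal hm0],
    ?_, ?_⟩
  · rw [hnu, Measure.map_apply measurable_norm measurableSet_Iic]
    have h1 : (fun x : E3 => ‖x‖) ⁻¹' Iic 0 = {0} := by
      ext x
      simp
    rw [h1]
    exact withDensity_absolutelyContinuous _ _ (by simp)
  · intro f hf
    constructor
    · rw [hnu, integrable_map_measure hf.aestronglyMeasurable measurable_norm.aemeasurable,
        integrable_withDensity_iff_integrable_smul₀ hwm, hsm]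
      rfl
    · rw [hnu, integral_map measurable_norm.aemeasurable hf.aestronglyMeasurable,
        integral_withDensity_eq_integral_smul₀ hwm, hsm]

end Pool.Agent.H29.HN
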