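import Pool.Agent.H99.HN.Targets

/-!
# HN project: tools for `H¹` functions
-/

set_option autoImplicit false

namespace Pool.Agent.H29.HN

open Pool.Agent.H99.HM Pool.Agent.H99.HN
open MeasureTheory Set Filter Topology Real
open scoped ContDiff

section general

variable {α : Type*} [MeasurableSpace α] {μ : Measure α}

lemma integrable_sq {f : α → ℂ} (hf : MemLp f 2 μ) : Integrable (fun x => ‖f x‖ ^ 2) μ :=
  (memLp_two_iff_integrable_sq_norm hf.1).1 hf

lemma integrable_norm_mul {f g : α → ℂ} (hf : MemLp f 2 μ) (hg : MemLp g 2 μ) :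
    Integrable (fun x => ‖f x‖ * ‖g x‖) μ := by
  refine ((integrable_sq hf).add (integrable_sq hg)).mono' (hf.1.norm.mul hg.1.norm) ?_
  filter_upwards with x
  rw [Real.norm_eq_abs, abs_of_nonneg (by positivity), Pi.add_apply]
  nlinarith [sq_nonneg (‖f x‖ - ‖g x‖), norm_nonneg (f x), norm_nonneg (g x)]

lemma integrable_mul {f g : α → ℂ} (hf : MemLp f 2 μ) (hg : MemLp g 2 μ) :
    Integrable (fun x => f x * g x) μ := by
  refine (integrable_norm_mul hf hg).mono' (hf.1.mul hg.1) ?_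
  filter_upwards with x
  rw [norm_mul]

/-- Cauchy-Schwarz -/
lemma cs {f g : α → ℂ} (hf : MemLp f 2 μ) (hg : MemLp g 2 μ) :
    ∫ x, ‖f x‖ * ‖g x‖ ∂μ ≤ √(∫ x, ‖f x‖ ^ 2 ∂μ) * √(∫ x, ‖g x‖ ^ 2 ∂μ) := by
  have h2 : ENNReal.ofReal 2 = 2 := by norm_num
  have := integral_mul_norm_le_Lp_mul_Lq (μ := μ) (f := f) (g := g)
    (Real.HolderConjugate.two_two) (by rw [h2]; exact hf) (by rw [h2]; exact hg)
  rw [Real.sqrt_eq_rpow, Real.sqrt_eq_rpow]
  simpa using this

lemma norm_integral_mul_le {f g : α → ℂ} (hf : MemLp f 2 μ) (hg : MemLp g 2 μ) :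
    ‖∫ x, f x * g x ∂μ‖ ≤ √(∫ x, ‖f x‖ ^ 2 ∂μ) * √(∫ x, ‖g x‖ ^ 2 ∂μ) := by
  refine (norm_integral_le_integral_norm _).trans ?_
  simp only [norm_mul]
  exact cs hf hg

lemma tendsto_sqrt_zero {a : ℕ → ℝ} (h : Tendsto a atTop (𝓝 0)) :
    Tendsto (fun n => √(a n)) atTop (𝓝 0) := by
  have := (Real.continuous_sqrt.tendsto 0).comp h
  rw [Real.sqrt_zero] at this
  exact this

/-- `L²` limits against a fixed `L²` function -/
lemma tendsto_mul {w v : α → ℂ} {vn : ℕ → α → ℂ} (hw : MemLp w 2 μ) (hv : MemLp v 2 μ)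
    (hvn : ∀ n, MemLp (vn n) 2 μ)
    (h : Tendsto (fun n => ∫ x, ‖v x - vn n x‖ ^ 2 ∂μ) atTop (𝓝 0)) :
    Tendsto (fun n => ∫ x, w x * vn n x ∂μ) atTop (𝓝 (∫ x, w x * v x ∂μ)) := by
  rw [tendsto_iff_norm_sub_tendsto_zero]
  have hb : ∀ n, ‖(∫ x, w x * vn n x ∂μ) - ∫ x, w x * v x ∂μ‖ ≤
      √(∫ x, ‖w x‖ ^ 2 ∂μ) * √(∫ x, ‖v x - vn n x‖ ^ 2 ∂μ) := by
    intro n
    have e : (∫ x, w x * vn n x ∂μ) - ∫ x, w x * v x ∂μ =
        -∫ x, w x * (v x - vn n x) ∂μ := by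
      rw [← integral_sub (integrable_mul hw (hvn n)) (integrable_mul hw hv), ← integral_neg]
      congr 1
      funext x
      ring
    rw [e, norm_neg]
    exact norm_integral_mul_le hw (hv.sub (hvn n))
  refine squeeze_zero (fun n => norm_nonneg _) hb ?_
  have := (tendsto_sqrt_zero h).const_mul (√(∫ x, ‖w x‖ ^ 2 ∂μ))
  rw [mul_zero] at this
  exact this

/-- convergence of the norms -/
lemma tendsto_norm_sq {v : α → ℂ} {vn : ℕ → α → ℂ} (hv : MemLp v 2 μ)
    (hvn : ∀ n, MemLp (vn n) 2 μ)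
    (h : Tendsto (fun n => ∫ x, ‖v x - vn n x‖ ^ 2 ∂μ) atTop (𝓝 0)) :
    ∃ C, ∀ n, ∫ x, ‖vn n x‖ ^ 2 ∂μ ≤ C := by
  obtain ⟨C, hC⟩ := h.bddAbove_range
  refine ⟨2 * (∫ x, ‖v x‖ ^ 2 ∂μ) + 2 * C, fun n => ?_⟩
  have h1 : ∫ x, ‖vn n x‖ ^ 2 ∂μ ≤
      ∫ x, (2 * ‖v x‖ ^ 2 + 2 * ‖v x - vn n x‖ ^ 2) ∂μ := by
    refine integral_mono (integrable_sq (hvn n))
      (((integrable_sq hv).const_mul 2).add ((integrable_sq (hv.sub (hvn n))).const_mul 2)) ?_
    intro x
    have h2 : ‖vn n x‖ ≤ ‖v x‖ + ‖v x - vn n x‖ := by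
      have := norm_sub_le (v x) (v x - vn n x)
      rwa [sub_sub_cancel] at this
    change ‖vn n x‖ ^ 2 ≤ 2 * ‖v x‖ ^ 2 + 2 * ‖v x - vn n x‖ ^ 2
    nlinarith [norm_nonneg (v x), norm_nonneg (v x - vn n x), norm_nonneg (vn n x),
      sq_nonneg (‖v x‖ - ‖v x - vn n x‖)]
  have hi : Integrable (fun x => ‖v x - vn n x‖ ^ 2) μ := integrable_sq (hv.sub (hvn n))
  rw [integral_add ((integrable_sq hv).const_mul 2) (hi.const_mul 2), integral_const_mul,
    integral_const_mul] at h1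
  have h3 : ∫ x, ‖v x - vn n x‖ ^ 2 ∂μ ≤ C := hC ⟨n, rfl⟩
  linarith

end general

/-! ### test functions -/

lemma continuous_pd {φ : E3 → ℝ} (h : IsTest φ) (i : Fin 3) : Continuous (pd i φ) := by
  have h1 : Continuous (fderiv ℝ φ) := h.1.continuous_fderiv (by simp)
  exact h1.clm_apply continuous_const

lemma hasCompactSupport_pd {φ : E3 → ℝ} (h : IsTest φ) (i : Fin 3) :
    HasCompactSupport (pd i φ) := by
  have h1 : HasCompactSupport (fderiv ℝ φ) := h.2.fderiv (𝕜 := ℝ)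
  exact h1.comp_left (g := fun L : E3 →L[ℝ] ℝ => L (EuclideanSpace.single i 1)) (by simp)

lemma memLp_of_cc {φ : E3 → ℝ} (h : Continuous φ) (hc : HasCompactSupport φ) :
    MemLp (fun x => (φ x : ℂ)) 2 volume := by
  have h1 : Continuous fun x => (φ x : ℂ) := Complex.continuous_ofReal.comp h
  exact h1.memLp_of_hasCompactSupport (hc.comp_left (g := fun t : ℝ => (t : ℂ)) (by simp))

lemma memLp_test {φ : E3 → ℝ} (h : IsTest φ) : MemLp (fun x => (φ x : ℂ)) 2 volume :=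
  memLp_of_cc h.1.continuous h.2

lemma memLp_pd {φ : E3 → ℝ} (h : IsTest φ) (i : Fin 3) :
    MemLp (fun x => (pd i φ x : ℂ)) 2 volume :=
  memLp_of_cc (continuous_pd h i) (hasCompactSupport_pd h i)

lemma memLp_combo {f g : E3 → ℂ} (hf : MemLp f 2 volume) (hg : MemLp g 2 volume) :
    MemLp (fun x => f x + g x * Complex.I) 2 volume := by
  have : MemLp (fun x => Complex.I * g x) 2 volume := hg.const_mul Complex.I
  have h2 := hf.add this
  refine h2.ae_eq ?_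
  filter_upwards with x
  simp [mul_comm]

/-- weak derivatives against complex test functions -/
lemma weakC {u : E3 → ℂ} {G : Fin 3 → E3 → ℂ} (h : IsH1 u G) {φ ψ : E3 → ℝ} (hφ : IsTest φ)
    (hψ : IsTest ψ) (i : Fin 3) :
    ∫ x, u x * ((pd i φ x : ℂ) + (pd i ψ x : ℂ) * Complex.I) =
      - ∫ x, G i x * ((φ x : ℂ) + (ψ x : ℂ) * Complex.I) := by
  have e1 : ∀ x, u x * ((pd i φ x : ℂ) + (pd i ψ x : ℂ) * Complex.I) =
      u x * (pd i φ x : ℂ) + u x * (pd i ψ x : ℂ) * Complex.I := fun x => by ring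
  have e2 : ∀ x, G i x * ((φ x : ℂ) + (ψ x : ℂ) * Complex.I) =
      G i x * (φ x : ℂ) + G i x * (ψ x : ℂ) * Complex.I := fun x => by ring
  simp only [e1, e2]
  rw [integral_add (integrable_mul h.memLp (memLp_pd hφ i))
    ((integrable_mul h.memLp (memLp_pd hψ i)).mul_const _), integral_mul_const,
    integral_add (integrable_mul (h.memLp_grad i) (memLp_test hφ))
    ((integrable_mul (h.memLp_grad i) (memLp_test hψ)).mul_const _), integral_mul_const,
    h.weak i φ hφ, h.weak i ψ hψ]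
  ring

/-! ### algebra of `H¹` -/

lemma isH1_conj {u : E3 → ℂ} {G : Fin 3 → E3 → ℂ} (h : IsH1 u G) :
    IsH1 (fun x => starRingEnd ℂ (u x)) (fun i x => starRingEnd ℂ (G i x)) := by
  have hm : ∀ f : E3 → ℂ, MemLp f 2 volume → MemLp (fun x => starRingEnd ℂ (f x)) 2 volume := by
    intro f hf
    have h1 : AEStronglyMeasurable (fun x => starRingEnd ℂ (f x)) volume :=
      Complex.continuous_conj.comp_aestronglyMeasurable hf.1
    refine hf.of_le h1 ?_
    filter_upwards with x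
    simp
  refine ⟨hm _ h.memLp, fun i => hm _ (h.memLp_grad i), fun i φ hφ => ?_⟩
  have e1 : ∀ x, starRingEnd ℂ (u x) * (pd i φ x : ℂ) =
      starRingEnd ℂ (u x * (pd i φ x : ℂ)) := fun x => by simp
  have e2 : ∀ x, starRingEnd ℂ (G i x) * (φ x : ℂ) =
      starRingEnd ℂ (G i x * (φ x : ℂ)) := fun x => by simp
  simp only [e1, e2]
  rw [integral_conj, integral_conj, h.weak i φ hφ, map_neg]

lemma isH1_sub {u v : E3 → ℂ} {G H : Fin 3 → E3 → ℂ} (h : IsH1 u G) (h' : IsH1 v H) :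
    IsH1 (fun x => u x - v x) (fun i x => G i x - H i x) := by
  refine ⟨h.memLp.sub h'.memLp, fun i => (h.memLp_grad i).sub (h'.memLp_grad i), fun i φ hφ => ?_⟩
  simp only [sub_mul]
  rw [integral_sub (integrable_mul h.memLp (memLp_pd hφ i))
    (integrable_mul h'.memLp (memLp_pd hφ i)),
    integral_sub (integrable_mul (h.memLp_grad i) (memLp_test hφ))
    (integrable_mul (h'.memLp_grad i) (memLp_test hφ)), h.weak i φ hφ, h'.weak i φ hφ]
  ring

lemma isH1_add_I {u v : E3 → ℂ} {G H : Fin 3 → E3 → ℂ} (h : IsH1 u G) (h' : IsH1 v H) :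
    IsH1 (fun x => u x + v x * Complex.I) (fun i x => G i x + H i x * Complex.I) := by
  refine ⟨memLp_combo h.memLp h'.memLp, fun i => memLp_combo (h.memLp_grad i) (h'.memLp_grad i),
    fun i φ hφ => ?_⟩
  have e1 : ∀ x, (u x + v x * Complex.I) * (pd i φ x : ℂ) =
      u x * (pd i φ x : ℂ) + v x * (pd i φ x : ℂ) * Complex.I := fun x => by ring
  have e2 : ∀ x, (G i x + H i x * Complex.I) * (φ x : ℂ) =
      G i x * (φ x : ℂ) + H i x * (φ x : ℂ) * Complex.I := fun x => by ring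
  simp only [e1, e2]
  rw [integral_add (integrable_mul h.memLp (memLp_pd hφ i))
    ((integrable_mul h'.memLp (memLp_pd hφ i)).mul_const _),
    integral_add (integrable_mul (h.memLp_grad i) (memLp_test hφ))
    ((integrable_mul (h'.memLp_grad i) (memLp_test hφ)).mul_const _), integral_mul_const,
    integral_mul_const, h.weak i φ hφ, h'.weak i φ hφ]
  ring

/-- test functions are `H¹` -/
lemma isH1_test {φ : E3 → ℝ} (hφ : IsTest φ) :
    IsH1 (fun x => (φ x : ℂ)) (fun i x => (pd i φ x : ℂ)) := by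
  refine ⟨memLp_test hφ, fun i => memLp_pd hφ i, fun i ψ hψ => ?_⟩
  have hcc : ∀ {f g : E3 → ℝ}, Continuous f → Continuous g → HasCompactSupport g →
      Integrable (fun x => f x * g x) := by
    intro f g hf hg hgc
    exact (hf.mul hg).integrable_of_hasCompactSupport hgc.mul_left
  have key : ∫ x, φ x * pd i ψ x = - ∫ x, pd i φ x * ψ x := by
    have := integral_mul_fderiv_eq_neg_fderiv_mul_of_integrable (μ := (volume : Measure E3))
      (f := φ) (g := ψ) (v := EuclideanSpace.single i 1)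
      (hcc (continuous_pd hφ i) hψ.1.continuous hψ.2)
      (hcc hφ.1.continuous (continuous_pd hψ i) (hasCompactSupport_pd hψ i))
      (hcc hφ.1.continuous hψ.1.continuous hψ.2)
      (fun x _ => (hφ.1.differentiable (by simp)).differentiableAt)
      (fun x _ => (hψ.1.differentiable (by simp)).differentiableAt)
    exact this
  have e1 : ∀ x, (φ x : ℂ) * (pd i ψ x : ℂ) = ((φ x * pd i ψ x : ℝ) : ℂ) := fun x => by simp
  have e2 : ∀ x, (pd i φ x : ℂ) * (ψ x : ℂ) = ((pd i φ x * ψ x : ℝ) : ℂ) := fun x => by simp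
  simp only [e1, e2]
  rw [integral_complex_ofReal, integral_complex_ofReal, key]
  simp

/-! ### the quantities `g2`, `dr`, `ur` -/

lemma norm_dr_sq_le (G : Fin 3 → E3 → ℂ) (x : E3) : ‖dr G x‖ ^ 2 ≤ g2 G x := by
  have h1 : ‖dr G x‖ ≤ ∑ i, |x i / ‖x‖| * ‖G i x‖ := by
    unfold dr
    refine (norm_sum_le _ _).trans (Finset.sum_le_sum fun i _ => ?_)
    rw [norm_mul, Complex.norm_real, Real.norm_eq_abs]
  have h2 : (∑ i, |x i / ‖x‖| * ‖G i x‖) ^ 2 ≤ (∑ i, |x i / ‖x‖| ^ 2) * ∑ i, ‖G i x‖ ^ 2 :=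
    Finset.sum_mul_sq_le_sq_mul_sq _ _ _
  have h3 : ∑ i, |x i / ‖x‖| ^ 2 ≤ 1 := by
    have e : ∀ i, |x i / ‖x‖| ^ 2 = x i ^ 2 / ‖x‖ ^ 2 := fun i => by rw [sq_abs, div_pow]
    simp only [e]
    rw [← Finset.sum_div, ← EuclideanSpace.real_norm_sq_eq]
    exact div_self_le_one _
  have h4 : ‖dr G x‖ ^ 2 ≤ (∑ i, |x i / ‖x‖| * ‖G i x‖) ^ 2 :=
    pow_le_pow_left₀ (norm_nonneg _) h1 2
  have h5 : 0 ≤ ∑ i, ‖G i x‖ ^ 2 := Finset.sum_nonneg fun i _ => by positivity
  calc ‖dr G x‖ ^ 2 ≤ _ := h4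
    _ ≤ _ := h2
    _ ≤ 1 * ∑ i, ‖G i x‖ ^ 2 := mul_le_mul_of_nonneg_right h3 h5
    _ = g2 G x := by rw [one_mul]; rfl

lemma g2_nonneg (G : Fin 3 → E3 → ℂ) (x : E3) : 0 ≤ g2 G x :=
  Finset.sum_nonneg fun i _ => by positivity

lemma abs_ur_le (u : E3 → ℂ) (G : Fin 3 → E3 → ℂ) (x : E3) :
    |ur u G x| ≤ ‖u x‖ * ‖dr G x‖ := by
  unfold ur
  refine (Complex.abs_re_le_norm _).trans ?_
  rw [norm_mul, RCLike.norm_conj]

lemma abs_ur_le' (u : E3 → ℂ) (G : Fin 3 → E3 → ℂ) (x : E3) :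
    |ur u G x| ≤ (‖u x‖ ^ 2 + g2 G x) / 2 := by
  have h1 := abs_ur_le u G x
  have h2 := norm_dr_sq_le G x
  nlinarith [sq_nonneg (‖u x‖ - ‖dr G x‖)]

lemma integrable_g2 {u : E3 → ℂ} {G : Fin 3 → E3 → ℂ} (h : IsH1 u G) : Integrable (g2 G) := by
  unfold g2
  exact integrable_finsetSum _ fun i _ => integrable_sq (h.memLp_grad i)

lemma aesm_of_contOn {f : ℝ → ℝ} (hf : ContinuousOn f (Ioi 0)) :
    AEStronglyMeasurable (fun x : E3 => f ‖x‖) volume := by
  have h1 : ContinuousOn (fun x : E3 => f ‖x‖) {0}ᶜ := by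
    refine hf.comp continuous_norm.continuousOn ?_
    intro x hx
    exact norm_pos_iff.2 hx
  have h2 := h1.aestronglyMeasurable (μ := (volume : Measure E3)) (measurableSet_singleton 0).compl
  rwa [Measure.restrict_eq_self_of_ae_mem] at h2
  rw [ae_iff]
  simp

lemma aesm_coord (i : Fin 3) : AEStronglyMeasurable (fun x : E3 => x i / ‖x‖) volume := by
  have h1 : Measurable fun x : E3 => x i / ‖x‖ := by
    fun_prop
  exact h1.aestronglyMeasurable

lemma aesm_dr {u : E3 → ℂ} {G : Fin 3 → E3 → ℂ} (h : IsH1 u G) :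
    AEStronglyMeasurable (dr G) volume := by
  unfold dr
  refine Finset.aestronglyMeasurable_fun_sum _ fun i _ => ?_
  exact (Complex.continuous_ofReal.comp_aestronglyMeasurable (aesm_coord i)).mul
    (h.memLp_grad i).1

lemma aesm_ur {u : E3 → ℂ} {G : Fin 3 → E3 → ℂ} (h : IsH1 u G) :
    AEStronglyMeasurable (ur u G) volume := by
  unfold ur
  exact Complex.continuous_re.comp_aestronglyMeasurable
    ((Complex.continuous_conj.comp_aestronglyMeasurable h.memLp.1).mul (aesm_dr h))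

lemma memLp_dr {u : E3 → ℂ} {G : Fin 3 → E3 → ℂ} (h : IsH1 u G) : MemLp (dr G) 2 volume := by
  rw [memLp_two_iff_integrable_sq_norm (aesm_dr h)]
  refine (integrable_g2 h).mono' ((aesm_dr h).norm.pow 2) ?_
  filter_upwards with x
  rw [Real.norm_eq_abs, abs_of_nonneg (by positivity)]
  exact norm_dr_sq_le G x

lemma integrable_ur {u : E3 → ℂ} {G : Fin 3 → E3 → ℂ} (h : IsH1 u G) :
    Integrable (ur u G) := by
  refine (((integrable_sq h.memLp).add (integrable_g2 h)).div_const 2).mono' (aesm_ur h) ?_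
  filter_upwards with x
  rw [Real.norm_eq_abs]
  exact abs_ur_le' u G x

/-- bounded times integrable -/
lemma integrable_bdd_mul {f g : E3 → ℝ} {C : ℝ} (hf : AEStronglyMeasurable f volume)
    (hC : ∀ᵐ x, |f x| ≤ C) (hg : Integrable g) : Integrable (fun x => f x * g x) := by
  refine (hg.norm.const_mul C).mono' (hf.mul hg.1) ?_
  filter_upwards [hC] with x hx
  rw [norm_mul, Real.norm_eq_abs]
  exact mul_le_mul_of_nonneg_right hx (norm_nonneg _)

lemma ae_ne_zero : ∀ᵐ x : E3, x ≠ 0 := by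
  have : ({0}ᶜ : Set E3) ∈ ae volume := by
    rw [mem_ae_iff]
    simp
  exact this

lemma ae_pos_norm : ∀ᵐ x : E3, 0 < ‖x‖ := ae_ne_zero.mono fun _ hx => norm_pos_iff.2 hx

lemma integrable_rad_mul {f : ℝ → ℝ} {C : ℝ} (hf : ContinuousOn f (Ioi 0))
    (hC : ∀ r, 0 < r → |f r| ≤ C) {g : E3 → ℝ} (hg : Integrable g) :
    Integrable (fun x => f ‖x‖ * g x) :=
  integrable_bdd_mul (aesm_of_contOn hf) (ae_pos_norm.mono fun _ hx => hC _ hx) hg

end Pool.Agent.H29.HN
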