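import Pool.Agent.H29.HN.MUL

/-!
# HN project: ZF, bounds for `Zf`
-/

set_option autoImplicit false

namespace Pool.Agent.H29.HN

open Pool.Agent.H99.HM Pool.Agent.H99.HN
open MeasureTheory Set Filter Topology Real
open scoped ContDiff

lemma abs_kernel_le (x y : E3) : |inner ℝ x (x - y) / ‖x - y‖ ^ 3| ≤ ‖x‖ / ‖x - y‖ ^ 2 := by
  rcases (norm_nonneg (x - y)).eq_or_lt with h | h
  · rw [← h]
    simp
  · rw [abs_div, abs_of_pos (by positivity : 0 < ‖x - y‖ ^ 3), div_le_div_iff₀ (by positivity)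
      (by positivity)]
    have h1 : |inner ℝ x (x - y)| ≤ ‖x‖ * ‖x - y‖ := abs_real_inner_le_norm x (x - y)
    calc |inner ℝ x (x - y)| * ‖x - y‖ ^ 2 ≤ ‖x‖ * ‖x - y‖ * ‖x - y‖ ^ 2 :=
          mul_le_mul_of_nonneg_right h1 (by positivity)
      _ = _ := by ring

lemma sum_coord_sq_le (x : E3) : ∑ i, |x i / ‖x‖| ^ 2 ≤ 1 := by
  have e : ∀ i, |x i / ‖x‖| ^ 2 = x i ^ 2 / ‖x‖ ^ 2 := fun i => by rw [sq_abs, div_pow]
  simp only [e]
  rw [← Finset.sum_div, ← EuclideanSpace.real_norm_sq_eq]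
  exact div_self_le_one _

/-- the gradient of `h(r) u` -/
lemma g2_mul_le (u : E3 → ℂ) (G : Fin 3 → E3 → ℂ) (a b : ℝ) (x : E3) :
    g2 (fun i y => (a : ℂ) * G i y + ((b * (y i / ‖y‖) : ℝ) : ℂ) * u y) x ≤
      2 * a ^ 2 * g2 G x + 2 * b ^ 2 * ‖u x‖ ^ 2 := by
  unfold g2
  have h1 : ∀ i : Fin 3, ‖(a : ℂ) * G i x + ((b * (x i / ‖x‖) : ℝ) : ℂ) * u x‖ ^ 2 ≤
      2 * a ^ 2 * ‖G i x‖ ^ 2 + 2 * b ^ 2 * ‖u x‖ ^ 2 * |x i / ‖x‖| ^ 2 := by
    intro i
    have h2 := norm_add_le ((a : ℂ) * G i x) (((b * (x i / ‖x‖) : ℝ) : ℂ) * u x)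
    rw [norm_mul, norm_mul, Complex.norm_real, Complex.norm_real, Real.norm_eq_abs,
      Real.norm_eq_abs] at h2
    have h3 : (|a| * ‖G i x‖) ^ 2 = a ^ 2 * ‖G i x‖ ^ 2 := by rw [mul_pow, sq_abs]
    have h4 : (|b * (x i / ‖x‖)| * ‖u x‖) ^ 2 = b ^ 2 * ‖u x‖ ^ 2 * |x i / ‖x‖| ^ 2 := by
      rw [mul_pow, abs_mul, mul_pow, sq_abs, sq_abs]
      ring
    have h5 := norm_nonneg ((a : ℂ) * G i x + ((b * (x i / ‖x‖) : ℝ) : ℂ) * u x)
    have h6 : ‖(a : ℂ) * G i x + ((b * (x i / ‖x‖) : ℝ) : ℂ) * u x‖ ^ 2 ≤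
        (|a| * ‖G i x‖ + |b * (x i / ‖x‖)| * ‖u x‖) ^ 2 := pow_le_pow_left₀ h5 h2 2
    nlinarith [sq_nonneg (|a| * ‖G i x‖ - |b * (x i / ‖x‖)| * ‖u x‖)]
  refine (Finset.sum_le_sum fun i _ => h1 i).trans ?_
  rw [Finset.sum_add_distrib, ← Finset.mul_sum, ← Finset.mul_sum]
  have h7 := sum_coord_sq_le x
  have h8 : 2 * b ^ 2 * ‖u x‖ ^ 2 * ∑ i, |x i / ‖x‖| ^ 2 ≤ 2 * b ^ 2 * ‖u x‖ ^ 2 * 1 :=
    mul_le_mul_of_nonneg_left h7 (by positivity)
  linarith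

/-- ZF -/
theorem zf (hhardy : T_hardy) (hmul : T_mul) : T_zf := by
  intro u G hu
  have hint : ∀ x : E3, Integrable (fun y => ‖u y‖ ^ 2 / ‖x - y‖ ^ 2) := by
    intro x
    refine (hhardy u G hu x).1.congr ?_
    filter_upwards with y
    rw [norm_sub_rev]
  have hint2 : ∀ x : E3, ∫ y, ‖u y‖ ^ 2 / ‖x - y‖ ^ 2 ≤ 4 * ∫ y, g2 G y := by
    intro x
    have h1 := (hhardy u G hu x).2
    simp only [norm_sub_rev _ x] at h1
    exact h1
  have hZ : ∀ x : E3, |Zf u x| ≤ ∫ y, ‖x‖ * (‖u y‖ ^ 2 / ‖x - y‖ ^ 2) := by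
    intro x
    unfold Zf
    refine (abs_integral_le_integral_abs).trans ?_
    refine integral_mono_of_nonneg (ae_of_all _ fun y => abs_nonneg _) ((hint x).const_mul _)
      (ae_of_all _ fun y => ?_)
    simp only
    rw [abs_mul, abs_of_nonneg (by positivity : 0 ≤ ‖u y‖ ^ 2)]
    calc ‖u y‖ ^ 2 * |inner ℝ x (x - y) / ‖x - y‖ ^ 3| ≤ ‖u y‖ ^ 2 * (‖x‖ / ‖x - y‖ ^ 2) :=
          mul_le_mul_of_nonneg_left (abs_kernel_le x y) (by positivity)
      _ = _ := by ring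
  refine ⟨fun x => ⟨hint x, ?_⟩, ?_, ?_⟩
  · refine (hZ x).trans ?_
    rw [integral_const_mul, mul_comm]
    exact mul_le_mul_of_nonneg_right (hint2 x) (norm_nonneg _)
  · unfold Zf
    have h1 : AEStronglyMeasurable (fun p : E3 × E3 => ‖u p.2‖ ^ 2 *
        (inner ℝ p.1 (p.1 - p.2) / ‖p.1 - p.2‖ ^ 3)) (volume.prod volume) := by
      refine (hu.memLp.1.comp_snd.norm.pow 2).mul ?_
      have : Measurable fun p : E3 × E3 => inner ℝ p.1 (p.1 - p.2) / ‖p.1 - p.2‖ ^ 3 := by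
        fun_prop
      exact this.aestronglyMeasurable
    exact h1.integral_prod_right'
  · intro hmom ε hε
    set K : ℝ := 72 * (∫ x, ‖x‖ ^ 2 * g2 G x) + 76 * mass u with hK
    have hm2 := (hmom 2).2
    have hK1 : 0 ≤ ∫ x, ‖x‖ ^ 2 * g2 G x :=
      integral_nonneg fun x => mul_nonneg (by positivity) (g2_nonneg G x)
    have hK2 : 0 ≤ mass u := integral_nonneg fun x => by positivity
    have hK0 : 0 ≤ K := by
      rw [hK]
      linarith
    clear_value K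
    refine ⟨K / ε + 1, by positivity, fun x hx => ?_⟩
    set ρ := ‖x‖ with hρ
    have hρ0 : 0 < ρ := by
      have : 0 < K / ε + 1 := by positivity
      linarith
    suffices h : |Zf u x| ≤ K / ρ by
      refine h.trans ?_
      rw [div_le_iff₀ hρ0]
      have : K / ε * ε = K := by field_simp
      nlinarith
    -- the multiplier
    set th : ℝ → ℝ := fun r => √ρ * (r / (ρ + r)) with hth
    set th1 : ℝ → ℝ := fun r => √ρ * (ρ / (ρ + r) ^ 2) with hth1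
    have hsq : √ρ ^ 2 = ρ := Real.sq_sqrt hρ0.le
    have hC1 : C1 th th1 := by
      constructor
      · intro r hr
        have h1 : HasDerivAt (fun r : ℝ => r / (ρ + r)) ((1 * (ρ + r) - r * 1) / (ρ + r) ^ 2) r :=
          (hasDerivAt_id' r).fun_div ((hasDerivAt_id' r).const_add ρ) (by positivity)
        refine (h1.const_mul (√ρ)).congr_deriv ?_
        rw [hth1]
        simp only
        congr 2
        ring
      · rw [hth1]
        refine continuousOn_const.mul (continuousOn_const.div (by fun_prop) ?_)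
        intro r hr
        have hr' : 0 < r := hr
        positivity
    have hthb : ∀ r, 0 < r → |th r| ≤ √ρ + 1 / √ρ ∧ |th1 r| ≤ √ρ + 1 / √ρ := by
      intro r hr
      have hs : 0 < √ρ := Real.sqrt_pos.2 hρ0
      have hs' : 0 < 1 / √ρ := by positivity
      constructor
      · rw [hth]
        simp only
        rw [abs_of_pos (by positivity)]
        have : r / (ρ + r) ≤ 1 := by
          rw [div_le_one (by positivity)]
          linarith
        nlinarith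
      · rw [hth1]
        simp only
        rw [abs_of_pos (by positivity)]
        have h1 : √ρ * (ρ / (ρ + r) ^ 2) ≤ 1 / √ρ := by
          rw [le_div_iff₀ hs]
          have e : √ρ * (ρ / (ρ + r) ^ 2) * √ρ = √ρ ^ 2 * ρ / (ρ + r) ^ 2 := by ring
          rw [e, hsq, div_le_one (by positivity)]
          nlinarith
        linarith
    have hup : ∀ r, 0 < r → th r ^ 2 ≤ r ^ 2 / ρ := by
      intro r hr
      rw [hth]
      simp only
      rw [mul_pow, hsq, div_pow, ← mul_div_assoc, div_le_div_iff₀ (by positivity) hρ0]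
      have : ρ * ρ ≤ (ρ + r) ^ 2 := by nlinarith
      calc ρ * r ^ 2 * ρ = r ^ 2 * (ρ * ρ) := by ring
        _ ≤ r ^ 2 * (ρ + r) ^ 2 := mul_le_mul_of_nonneg_left this (by positivity)
    have hup1 : ∀ r, 0 < r → th1 r ^ 2 ≤ 1 / ρ := by
      intro r hr
      rw [hth1]
      simp only
      rw [mul_pow, hsq, div_pow, ← mul_div_assoc, div_le_div_iff₀ (by positivity) hρ0, one_mul]
      have h4 : ρ ^ 2 ≤ (ρ + r) ^ 2 := by nlinarith
      calc ρ * ρ ^ 2 * ρ = ρ ^ 2 * ρ ^ 2 := by ring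
        _ ≤ (ρ + r) ^ 2 * (ρ + r) ^ 2 := mul_le_mul h4 h4 (by positivity) (by positivity)
        _ = _ := by ring
    have hlow : ∀ r, ρ / 2 ≤ r → ρ ≤ 9 * th r ^ 2 := by
      intro r h
      rw [hth]
      simp only
      have hy0 : 0 < r := by linarith
      have h2 : 1 / 3 ≤ r / (ρ + r) := by
        rw [div_le_div_iff₀ (by norm_num) (by positivity)]
        linarith
      have h3 : (1 / 3 : ℝ) ^ 2 ≤ (r / (ρ + r)) ^ 2 := pow_le_pow_left₀ (by norm_num) h2 2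
      rw [mul_pow, hsq]
      nlinarith
    clear_value th th1
    have hv := hmul u G hu th th1 _ hC1 hthb
    obtain ⟨hv1, hv2⟩ := hhardy _ _ hv x
    -- gradient bound
    have hg : ∀ᵐ y : E3, g2 (fun i y => (th ‖y‖ : ℂ) * G i y +
        ((th1 ‖y‖ * (y i / ‖y‖) : ℝ) : ℂ) * u y) y ≤
        2 / ρ * (‖y‖ ^ 2 * g2 G y + ‖u y‖ ^ 2) := by
      filter_upwards [ae_pos_norm] with y hy
      have h1 := g2_mul_le u G (th ‖y‖) (th1 ‖y‖) y
      have e : g2 (fun i y => (th ‖y‖ : ℂ) * G i y +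
        ((th1 ‖y‖ * (y i / ‖y‖) : ℝ) : ℂ) * u y) y =
        g2 (fun i z => ((th ‖y‖ : ℝ) : ℂ) * G i z +
          ((th1 ‖y‖ * (z i / ‖z‖) : ℝ) : ℂ) * u z) y := rfl
      rw [e]
      refine h1.trans ?_
      have h2 := hup ‖y‖ hy
      have h3 := hup1 ‖y‖ hy
      have h5 := g2_nonneg G y
      have h6 : 2 * th ‖y‖ ^ 2 * g2 G y ≤ 2 * (‖y‖ ^ 2 / ρ) * g2 G y :=
        mul_le_mul_of_nonneg_right (by linarith) h5
      have h7 : 2 * th1 ‖y‖ ^ 2 * ‖u y‖ ^ 2 ≤ 2 * (1 / ρ) * ‖u y‖ ^ 2 :=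
        mul_le_mul_of_nonneg_right (by linarith) (by positivity)
      calc _ ≤ 2 * (‖y‖ ^ 2 / ρ) * g2 G y + 2 * (1 / ρ) * ‖u y‖ ^ 2 := add_le_add h6 h7
        _ = _ := by ring
    have hgi : ∫ y, g2 (fun i y => (th ‖y‖ : ℂ) * G i y +
        ((th1 ‖y‖ * (y i / ‖y‖) : ℝ) : ℂ) * u y) y ≤
        2 / ρ * ((∫ x, ‖x‖ ^ 2 * g2 G x) + mass u) := by
      unfold mass
      rw [← integral_add hm2 (integrable_sq hu.memLp), ← integral_const_mul]
      exact integral_mono_ae (integrable_g2 hv)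
        ((hm2.add (integrable_sq hu.memLp)).const_mul _) hg
    -- pointwise bound
    have hpt : ∀ y : E3, ρ * (‖u y‖ ^ 2 / ‖x - y‖ ^ 2) ≤
        9 * (‖(th ‖y‖ : ℂ) * u y‖ ^ 2 / ‖y - x‖ ^ 2) + 4 / ρ * ‖u y‖ ^ 2 := by
      intro y
      have hrhs1 : 0 ≤ 9 * (‖(th ‖y‖ : ℂ) * u y‖ ^ 2 / ‖y - x‖ ^ 2) := by positivity
      have hrhs2 : 0 ≤ 4 / ρ * ‖u y‖ ^ 2 := by positivity
      rcases lt_or_ge ‖y‖ (ρ / 2) with h | h
      · have h1 : ρ / 2 ≤ ‖x - y‖ := by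
          have := norm_sub_norm_le x y
          linarith
        have h2 : ρ / ‖x - y‖ ^ 2 ≤ 4 / ρ := by
          have h3 : 0 < ‖x - y‖ := by linarith
          rw [div_le_div_iff₀ (by positivity) hρ0]
          nlinarith
        have h4 : ρ * (‖u y‖ ^ 2 / ‖x - y‖ ^ 2) = ρ / ‖x - y‖ ^ 2 * ‖u y‖ ^ 2 := by ring
        rw [h4]
        have := mul_le_mul_of_nonneg_right h2 (by positivity : 0 ≤ ‖u y‖ ^ 2)
        linarith
      · have h1 := hlow ‖y‖ h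
        rw [norm_sub_rev y x, norm_mul, Complex.norm_real, Real.norm_eq_abs, mul_pow, sq_abs]
        have h2 : ρ * (‖u y‖ ^ 2 / ‖x - y‖ ^ 2) ≤ 9 * th ‖y‖ ^ 2 * (‖u y‖ ^ 2 / ‖x - y‖ ^ 2) :=
          mul_le_mul_of_nonneg_right h1 (by positivity)
        have h3 : 9 * th ‖y‖ ^ 2 * (‖u y‖ ^ 2 / ‖x - y‖ ^ 2) =
            9 * (th ‖y‖ ^ 2 * ‖u y‖ ^ 2 / ‖x - y‖ ^ 2) := by ring
        linarith
    have hfin : ∫ y, ρ * (‖u y‖ ^ 2 / ‖x - y‖ ^ 2) ≤
        ∫ y, (9 * (‖(th ‖y‖ : ℂ) * u y‖ ^ 2 / ‖y - x‖ ^ 2) + 4 / ρ * ‖u y‖ ^ 2) :=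
      integral_mono ((hint x).const_mul _)
        ((hv1.const_mul 9).add ((integrable_sq hu.memLp).const_mul _)) hpt
    rw [integral_add (hv1.const_mul 9) ((integrable_sq hu.memLp).const_mul _),
      integral_const_mul 9, integral_const_mul (4 / ρ)] at hfin
    have h10 := hZ x
    have h11 : (∫ y, ‖u y‖ ^ 2) = mass u := rfl
    rw [h11] at hfin
    have h12 : K / ρ = 9 * (4 * (2 / ρ * ((∫ x, ‖x‖ ^ 2 * g2 G x) + mass u))) +
        4 / ρ * mass u := by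
      rw [hK]
      ring
    rw [h12]
    linarith

end Pool.Agent.H29.HN
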